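import Mathlib

/-!
# The rank form (order and rank zero) for `y² = x³ + a x + b`: change of the equation and 2-isogenies
-/

set_option autoImplicit false
set_option linter.unusedVariables false

open scoped Classical

namespace Pool.Agent.L0h75.IS

open WeierstrassCurve

/-- the number of the affine points modulo `p` -/
noncomputable def Np (a b : ℤ) (p : ℕ) : ℕ := Nat.card {q : ZMod p × ZMod p //
  q.2 ^ 2 = q.1 ^ 3 + (a : ZMod p) * q.1 + (b : ZMod p)}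

/-- the factor at `p` of the incomplete `L`-series -/
noncomputable def tgi (a b : ℤ) (s : ℂ) (p : ℕ) : ℂ :=
  if p.Prime ∧ ¬ ((p : ℤ) ∣ 2 * (-4 * a ^ 3 - 27 * b ^ 2)) then
    (1 - ((p : ℂ) - (Nat.card {q : ZMod p × ZMod p //
        q.2 ^ 2 = q.1 ^ 3 + (a : ZMod p) * q.1 + (b : ZMod p)} : ℂ))
        * (p : ℂ) ^ (-s) + (p : ℂ) ^ (1 - 2 * s))⁻¹
  else 1

/-- the short equation -/
abbrev Sc (a b : ℤ) : WeierstrassCurve ℚ :=
  { a₁ := 0, a₂ := 0, a₃ := 0, a₄ := (a : ℚ), a₆ := (b : ℚ) }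

/-- the rank form, with order and rank zero, for `y² = x³ + a x + b` -/
def RZ2 (a b : ℤ) : Prop := ∃ F : ℂ → ℂ, Differentiable ℂ F ∧
  (∀ s : ℂ, (3 : ℝ) / 2 < s.re → HasProd (tgi a b s) (F s)) ∧ F 1 ≠ 0 ∧
  Finite (WeierstrassCurve.Affine.Point (WeierstrassCurve.toAffine (Sc a b)))

/-- the affine points over `ℚ` -/
def So (a b : ℤ) : Set (ℚ × ℚ) := {q | q.2 ^ 2 = q.1 ^ 3 + (a : ℚ) * q.1 + (b : ℚ)}

lemma so_of_pt {a b : ℤ} (hD : 4 * a ^ 3 + 27 * b ^ 2 ≠ 0)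
    (h : Finite (WeierstrassCurve.Affine.Point (WeierstrassCurve.toAffine (Sc a b)))) :
    (So a b).Finite := by
  have hns : ∀ x y : ℚ, (Sc a b).toAffine.Equation x y → (Sc a b).toAffine.Nonsingular x y := by
    intro x y hxy
    refine (WeierstrassCurve.Affine.equation_iff_nonsingular_of_Δ_ne_zero ?_).1 hxy
    have e : (Sc a b).toAffine.Δ = -16 * ((4 * a ^ 3 + 27 * b ^ 2 : ℤ) : ℚ) := by
      unfold WeierstrassCurve.Δ WeierstrassCurve.b₈ WeierstrassCurve.b₆ WeierstrassCurve.b₄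
        WeierstrassCurve.b₂
      push_cast
      ring
    rw [e]
    exact mul_ne_zero (by norm_num) (by exact_mod_cast hD)
  have heq : ∀ q : ℚ × ℚ, q ∈ So a b → (Sc a b).toAffine.Equation q.1 q.2 := by
    rintro ⟨x, y⟩ hq
    have hq' : y ^ 2 = x ^ 3 + (a : ℚ) * x + (b : ℚ) := hq
    rw [WeierstrassCurve.Affine.equation_iff]
    simp only
    linear_combination hq'
  rw [← Set.finite_coe_iff]
  refine Finite.of_injective (β := (Sc a b).toAffine.Point)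
    (fun q => Affine.Point.some _ _ (hns _ _ (heq q.1 q.2))) ?_
  rintro ⟨⟨x, y⟩, hq⟩ ⟨⟨x', y'⟩, hq'⟩ h1
  simp only [Affine.Point.some.injEq] at h1
  obtain ⟨rfl, rfl⟩ := h1
  rfl

lemma pt_of_so {a b : ℤ} (h : (So a b).Finite) :
    Finite (WeierstrassCurve.Affine.Point (WeierstrassCurve.toAffine (Sc a b))) := by
  have hf := h.to_subtype
  let g : WeierstrassCurve.Affine.Point (WeierstrassCurve.toAffine (Sc a b)) →
      Option (So a b) := fun P =>
    match P with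
    | .zero => none
    | .some x y hxy => some ⟨(x, y), by
        have h1 := (WeierstrassCurve.Affine.equation_iff _ _).1 hxy.1
        simp only at h1
        show y ^ 2 = x ^ 3 + (a : ℚ) * x + (b : ℚ)
        linear_combination h1⟩
  refine Finite.of_injective g ?_
  intro P Q hPQ
  rcases P with _ | ⟨x, y, hxy⟩ <;> rcases Q with _ | ⟨x', y', hxy'⟩
  · rfl
  · simp [g] at hPQ
  · simp [g] at hPQ
  · simp only [g, Option.some.injEq, Subtype.mk.injEq, Prod.mk.injEq] at hPQ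
    obtain ⟨rfl, rfl⟩ := hPQ
    rfl

/-! ### counting points modulo `p` -/

lemma count_sq {F : Type} [Field F] [Fintype F] [DecidableEq F] (hF : ringChar F ≠ 2) (g : F → F) :
    (Nat.card {x : F × F // x.2 ^ 2 = g x.1} : ℤ) =
      Fintype.card F + ∑ x, quadraticChar F (g x) := by
  classical
  have e : {x : F × F // x.2 ^ 2 = g x.1} ≃ Σ x : F, {y : F // y ^ 2 = g x} :=
    { toFun := fun p => ⟨p.1.1, ⟨p.1.2, p.2⟩⟩
      invFun := fun p => ⟨(p.1, p.2.1), p.2.2⟩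
      left_inv := fun _ => rfl
      right_inv := fun _ => rfl }
  rw [Nat.card_congr e, Nat.card_eq_fintype_card, Fintype.card_sigma]
  push_cast
  have h1 : ∀ x : F, ((Fintype.card {y : F // y ^ 2 = g x} : ℕ) : ℤ) = quadraticChar F (g x) + 1 := by
    intro x
    rw [← quadraticChar_card_sqrts hF (g x)]
    congr 1
    rw [Set.toFinset_card]
    rfl
  rw [Finset.sum_congr rfl (fun x _ => h1 x), Finset.sum_add_distrib, Finset.sum_const,
    Finset.card_univ, nsmul_eq_mul, mul_one, add_comm]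

lemma abs_trace_le {F : Type} [Field F] [Fintype F] [DecidableEq F] (hF : ringChar F ≠ 2)
    (g : F → F) :
    |(Fintype.card F : ℤ) - Nat.card {x : F × F // x.2 ^ 2 = g x.1}| ≤ Fintype.card F := by
  rw [count_sq hF g]
  have e : (Fintype.card F : ℤ) - ((Fintype.card F : ℤ) + ∑ x, quadraticChar F (g x)) =
      -∑ x, quadraticChar F (g x) := by ring
  rw [e, abs_neg]
  refine (Finset.abs_sum_le_sum_abs _ _).trans ?_
  have h1 : ∀ x : F, |quadraticChar F (g x)| ≤ 1 := by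
    intro x
    by_cases h : g x = 0
    · rw [h, MulChar.map_zero]
      norm_num
    · rcases quadraticChar_dichotomy h with h2 | h2 <;> rw [h2] <;> norm_num
  refine (Finset.sum_le_sum fun x _ => h1 x).trans ?_
  simp

/-- **the 2-isogeny**: the two curves have the same number of points -/
theorem sum_iso {F : Type} [Field F] [Fintype F] [DecidableEq F] (hF : ringChar F ≠ 2)
    {A B : F} (hB : B ≠ 0) :
    ∑ x, quadraticChar F (x * (x ^ 2 + A * x + B)) =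
      ∑ x, quadraticChar F (x * (x ^ 2 - 2 * A * x + (A ^ 2 - 4 * B))) := by
  classical
  have h2 : (2 : F) ≠ 0 := Ring.two_ne_zero hF
  -- the sum over `x ≠ 0` as a sum over `t = x + B / x`
  have hcard : ∀ t : F, (((Finset.univ.filter fun x : F => x ≠ 0 ∧ x + B / x = t).card : ℕ) : ℤ) =
      1 + quadraticChar F (t ^ 2 - 4 * B) := by
    intro t
    have e1 : (Finset.univ.filter fun x : F => x ≠ 0 ∧ x + B / x = t).card =
        {y : F | y ^ 2 = t ^ 2 - 4 * B}.toFinset.card := by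
      refine Finset.card_bij' (fun x _ => 2 * x - t) (fun y _ => (y + t) / 2) ?_ ?_ ?_ ?_
      · intro x hx
        rw [Finset.mem_filter] at hx
        obtain ⟨-, hx0, hx1⟩ := hx
        rw [Set.mem_toFinset, Set.mem_ofPred_eq]
        have h3 : x ^ 2 - t * x + B = 0 := by
          rw [← hx1]
          field_simp
          ring
        linear_combination 4 * h3
      · intro y hy
        rw [Set.mem_toFinset, Set.mem_ofPred_eq] at hy
        rw [Finset.mem_filter]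
        have h3 : ((y + t) / 2) ^ 2 - t * ((y + t) / 2) + B = 0 := by
          field_simp
          linear_combination hy
        have h4 : (y + t) / 2 ≠ 0 := by
          intro h5
          rw [h5] at h3
          apply hB
          linear_combination h3
        refine ⟨Finset.mem_univ _, h4, ?_⟩
        have h5 : ((y + t) / 2 + B / ((y + t) / 2)) * ((y + t) / 2) = t * ((y + t) / 2) := by
          rw [add_mul, div_mul_cancel₀ _ h4]
          linear_combination h3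
        exact mul_right_cancel₀ h4 h5
      · intro x hx
        field_simp
        ring
      · intro y hy
        field_simp
        ring
    rw [e1, quadraticChar_card_sqrts hF]
    ring
  have hs : ∀ t : F, ∑ x ∈ Finset.univ.filter (fun x : F => x ≠ 0 ∧ x + B / x = t),
      quadraticChar F (x * (x ^ 2 + A * x + B)) =
      quadraticChar F (t + A) * (1 + quadraticChar F (t ^ 2 - 4 * B)) := by
    intro t
    have e2 : ∀ x ∈ Finset.univ.filter (fun x : F => x ≠ 0 ∧ x + B / x = t),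
        quadraticChar F (x * (x ^ 2 + A * x + B)) = quadraticChar F (t + A) := by
      intro x hx
      rw [Finset.mem_filter] at hx
      obtain ⟨-, hx0, hx1⟩ := hx
      have e3 : x * (x ^ 2 + A * x + B) = x ^ 2 * (t + A) := by
        rw [← hx1]
        field_simp
        ring
      rw [e3, map_mul, quadraticChar_sq_one' hx0, one_mul]
    rw [Finset.sum_congr rfl e2, Finset.sum_const, nsmul_eq_mul, hcard, mul_comm]
  have hL : ∑ x, quadraticChar F (x * (x ^ 2 + A * x + B)) =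
      ∑ t, quadraticChar F (t + A) * (1 + quadraticChar F (t ^ 2 - 4 * B)) := by
    have h4 : ∑ x, quadraticChar F (x * (x ^ 2 + A * x + B)) =
        ∑ x ∈ Finset.univ.filter (fun x : F => x ≠ 0), quadraticChar F (x * (x ^ 2 + A * x + B)) := by
      rw [Finset.sum_filter]
      refine Finset.sum_congr rfl fun x _ => ?_
      by_cases hx : x = 0
      · rw [hx, zero_mul, MulChar.map_zero, if_neg (by simp)]
      · rw [if_pos hx]
    rw [h4, ← Finset.sum_fiberwise_of_maps_to (s := Finset.univ.filter (fun x : F => x ≠ 0))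
      (t := Finset.univ) (g := fun x => x + B / x) (fun _ _ => Finset.mem_univ _)]
    refine Finset.sum_congr rfl fun t _ => ?_
    rw [Finset.filter_filter, hs]
  have hR : ∑ x, quadraticChar F (x * (x ^ 2 - 2 * A * x + (A ^ 2 - 4 * B))) =
      ∑ t, quadraticChar F (t + A) * quadraticChar F (t ^ 2 - 4 * B) := by
    rw [← Equiv.sum_comp (Equiv.addRight A)]
    refine Finset.sum_congr rfl fun t _ => ?_
    rw [Equiv.coe_addRight, ← map_mul]
    congr 1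
    ring
  have h0 : ∑ t, quadraticChar F (t + A) = 0 := by
    have h5 := quadraticChar_sum_zero hF
    rw [← Equiv.sum_comp (Equiv.addRight A)] at h5
    exact h5
  rw [hL, hR]
  have e6 : ∀ t : F, quadraticChar F (t + A) * (1 + quadraticChar F (t ^ 2 - 4 * B)) =
      quadraticChar F (t + A) + quadraticChar F (t + A) * quadraticChar F (t ^ 2 - 4 * B) := by
    intro t
    ring
  rw [Finset.sum_congr rfl (fun t _ => e6 t), Finset.sum_add_distrib, h0, zero_add]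

/-- the numbers of the affine points of the curves related by a 2-isogeny, short equations -/
theorem Np_iso {a b a' b' r r' A B : ℤ} {p : ℕ} (hp : p.Prime) (h2 : p ≠ 2) (hB : ¬ (p : ℤ) ∣ B)
    (h : ∀ x : ℤ, x ^ 3 + a * x + b = (x - r) * ((x - r) ^ 2 + A * (x - r) + B))
    (h' : ∀ x : ℤ, x ^ 3 + a' * x + b' =
      (x - r') * ((x - r') ^ 2 - 2 * A * (x - r') + (A ^ 2 - 4 * B))) :
    Np a b p = Np a' b' p := by
  have : Fact p.Prime := ⟨hp⟩
  have hF : ringChar (ZMod p) ≠ 2 := by rwa [ZMod.ringChar_zmod_n]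
  have hB' : (B : ZMod p) ≠ 0 := fun h0 => hB ((ZMod.intCast_zmod_eq_zero_iff_dvd _ _).1 h0)
  -- the coefficients
  have c0 := h 0
  have c1 := h 1
  have c2 := h (-1)
  have c3 := h 2
  have d0 := h' 0
  have d1 := h' 1
  have d2 := h' (-1)
  have d3 := h' 2
  have kA : A = 3 * r := by linarith
  have ka : a = -3 * r ^ 2 + B := by
    subst kA
    linarith
  have kb : b = 2 * r ^ 3 - B * r := by
    subst kA
    linarith
  have kA' : 2 * A = -3 * r' := by linarith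
  have ka' : a' = -3 * r' ^ 2 + (A ^ 2 - 4 * B) := by
    rw [kA'] at d0 d1 d2 d3
    linarith
  have kb' : b' = 2 * r' ^ 3 - (A ^ 2 - 4 * B) * r' := by
    rw [kA'] at d0 d1 d2 d3
    linarith
  have e1 : ∀ x : ZMod p, x ^ 3 + (a : ZMod p) * x + (b : ZMod p) =
      (x - r) * ((x - r) ^ 2 + A * (x - r) + B) := by
    intro x
    rw [ka, kb, kA]
    push_cast
    ring
  have kA2 : (2 : ZMod p) * (A : ZMod p) = -3 * (r' : ZMod p) := by
    have := congrArg (Int.cast : ℤ → ZMod p) kA'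
    push_cast at this
    exact this
  have e2 : ∀ x : ZMod p, x ^ 3 + (a' : ZMod p) * x + (b' : ZMod p) =
      (x - r') * ((x - r') ^ 2 - 2 * A * (x - r') + (A ^ 2 - 4 * B)) := by
    intro x
    rw [ka', kb']
    push_cast
    linear_combination (x - r') ^ 2 * kA2
  have g1 := count_sq hF (fun x : ZMod p => x ^ 3 + (a : ZMod p) * x + (b : ZMod p))
  have g2 := count_sq hF (fun x : ZMod p => x ^ 3 + (a' : ZMod p) * x + (b' : ZMod p))
  have s1 : ∑ x, quadraticChar (ZMod p) (x ^ 3 + (a : ZMod p) * x + (b : ZMod p)) =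
      ∑ x, quadraticChar (ZMod p) (x * (x ^ 2 + A * x + B)) := by
    rw [← Equiv.sum_comp (Equiv.addRight (r : ZMod p))]
    refine Finset.sum_congr rfl fun x _ => ?_
    rw [Equiv.coe_addRight, e1]
    congr 1
    ring
  have s2 : ∑ x, quadraticChar (ZMod p) (x ^ 3 + (a' : ZMod p) * x + (b' : ZMod p)) =
      ∑ x, quadraticChar (ZMod p) (x * (x ^ 2 - 2 * A * x + (A ^ 2 - 4 * B))) := by
    rw [← Equiv.sum_comp (Equiv.addRight (r' : ZMod p))]
    refine Finset.sum_congr rfl fun x _ => ?_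
    rw [Equiv.coe_addRight, e2]
    congr 1
    ring
  have h5 : ((Np a b p : ℕ) : ℤ) = ((Np a' b' p : ℕ) : ℤ) := by
    unfold Np
    rw [g1, g2, s1, s2, sum_iso hF hB']
  exact_mod_cast h5

/-- change of the equation -/
theorem Np_scale {a b e : ℤ} {p : ℕ} (hp : p.Prime) (he : ¬ (p : ℤ) ∣ e) :
    Np (a * e ^ 4) (b * e ^ 6) p = Np a b p := by
  have : Fact p.Prime := ⟨hp⟩
  have he' : (e : ZMod p) ≠ 0 := fun h0 => he ((ZMod.intCast_zmod_eq_zero_iff_dvd _ _).1 h0)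
  unfold Np
  refine Nat.card_congr
    { toFun := fun x => ⟨(x.1.1 / (e : ZMod p) ^ 2, x.1.2 / (e : ZMod p) ^ 3), by
        obtain ⟨⟨x, y⟩, h⟩ := x
        have h' : y ^ 2 = x ^ 3 + ((a * e ^ 4 : ℤ) : ZMod p) * x + ((b * e ^ 6 : ℤ) : ZMod p) := h
        push_cast at h'
        show (y / (e : ZMod p) ^ 3) ^ 2 = (x / (e : ZMod p) ^ 2) ^ 3 +
          (a : ZMod p) * (x / (e : ZMod p) ^ 2) + (b : ZMod p)
        field_simp
        linear_combination h'⟩
      invFun := fun x => ⟨((e : ZMod p) ^ 2 * x.1.1, (e : ZMod p) ^ 3 * x.1.2), by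
        obtain ⟨⟨x, y⟩, h⟩ := x
        have h' : y ^ 2 = x ^ 3 + (a : ZMod p) * x + (b : ZMod p) := h
        show ((e : ZMod p) ^ 3 * y) ^ 2 = ((e : ZMod p) ^ 2 * x) ^ 3 +
          ((a * e ^ 4 : ℤ) : ZMod p) * ((e : ZMod p) ^ 2 * x) + ((b * e ^ 6 : ℤ) : ZMod p)
        push_cast
        linear_combination (e : ZMod p) ^ 6 * h'⟩
      left_inv := fun x => by
        apply Subtype.ext
        show ((e : ZMod p) ^ 2 * (x.1.1 / (e : ZMod p) ^ 2),
          (e : ZMod p) ^ 3 * (x.1.2 / (e : ZMod p) ^ 3)) = x.1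
        rw [mul_div_cancel₀ _ (pow_ne_zero _ he'), mul_div_cancel₀ _ (pow_ne_zero _ he')]
      right_inv := fun x => by
        apply Subtype.ext
        show ((e : ZMod p) ^ 2 * x.1.1 / (e : ZMod p) ^ 2,
          (e : ZMod p) ^ 3 * x.1.2 / (e : ZMod p) ^ 3) = x.1
        rw [mul_div_cancel_left₀ _ (pow_ne_zero _ he'), mul_div_cancel_left₀ _ (pow_ne_zero _ he')] }

/-! ### one Euler factor -/

/-- the Euler factor at `p` -/
noncomputable def ef (a b : ℤ) (p : ℕ) (s : ℂ) : ℂ :=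
  1 - ((p : ℂ) - (Np a b p : ℂ)) * (p : ℂ) ^ (-s) + (p : ℂ) ^ (1 - 2 * s)

lemma ef_diff (a b : ℤ) {p : ℕ} (hp : p.Prime) : Differentiable ℂ (ef a b p) := by
  have hp0 : (p : ℂ) ≠ 0 := by exact_mod_cast hp.ne_zero
  unfold ef
  have h1 : Differentiable ℂ fun s : ℂ => (p : ℂ) ^ (-s) := fun s =>
    (differentiableAt_id.neg).const_cpow (Or.inl hp0)
  have h2 : Differentiable ℂ fun s : ℂ => (p : ℂ) ^ (1 - 2 * s) := fun s =>
    ((differentiableAt_const _).sub ((differentiableAt_const _).mul differentiableAt_id)).const_cpow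
      (Or.inl hp0)
  exact ((differentiable_const _).sub ((differentiable_const _).mul h1)).add h2

lemma ef_one (a b : ℤ) {p : ℕ} (hp : p.Prime) : ef a b p 1 ≠ 0 := by
  have hp0 : (p : ℂ) ≠ 0 := by exact_mod_cast hp.ne_zero
  unfold ef
  have e : (1 : ℂ) - 2 * 1 = -1 := by ring
  rw [e, Complex.cpow_neg, Complex.cpow_one]
  intro h
  have h1 : ((p : ℂ) + 1 - (p - Np a b p)) = 0 := by
    have h2 : (1 - ((p : ℂ) - (Np a b p : ℂ)) * (p : ℂ)⁻¹ + (p : ℂ)⁻¹) * p = 0 := by rw [h, zero_mul]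
    field_simp at h2
    linear_combination h2
  have h3 : ((Np a b p + 1 : ℕ) : ℂ) = 0 := by
    push_cast
    linear_combination h1
  have h4 : Np a b p + 1 = 0 := by exact_mod_cast h3
  omega

lemma ef_ne (a b : ℤ) {p : ℕ} (hp : p.Prime) (h2 : p ≠ 2) {s : ℂ} (hs : 3 / 2 < s.re) :
    ef a b p s ≠ 0 := by
  have : Fact p.Prime := ⟨hp⟩
  have hp0 : (0 : ℝ) < p := by exact_mod_cast hp.pos
  have hp3 : (3 : ℝ) ≤ p := by
    have h3 : 3 ≤ p := by
      have := hp.two_le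
      omega
    exact_mod_cast h3
  have hF : ringChar (ZMod p) ≠ 2 := by rwa [ZMod.ringChar_zmod_n]
  have hb := abs_trace_le hF (fun x : ZMod p => x ^ 3 + (a : ZMod p) * x + (b : ZMod p))
  rw [ZMod.card] at hb
  have hb' : |(p : ℝ) - Np a b p| ≤ p := by exact_mod_cast hb
  intro h0
  have h1 : (1 : ℂ) = ((p : ℂ) - (Np a b p : ℂ)) * (p : ℂ) ^ (-s) - (p : ℂ) ^ (1 - 2 * s) := by
    unfold ef at h0
    linear_combination h0
  have n1 : ‖(p : ℂ) ^ (-s)‖ = (p : ℝ) ^ (-s.re) := by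
    rw [Complex.norm_natCast_cpow_of_pos hp.pos]
    rfl
  have n2 : ‖(p : ℂ) ^ (1 - 2 * s)‖ = (p : ℝ) ^ (1 - 2 * s.re) := by
    rw [Complex.norm_natCast_cpow_of_pos hp.pos]
    congr 1
    simp
  have n3 : ‖(p : ℂ) - (Np a b p : ℂ)‖ ≤ p := by
    have e : (p : ℂ) - (Np a b p : ℂ) = (((p : ℝ) - Np a b p : ℝ) : ℂ) := by push_cast; ring
    rw [e, Complex.norm_real]
    exact hb'
  have m1 : (p : ℝ) ^ (-s.re) < (p : ℝ) ^ (-(3 / 2) : ℝ) :=
    Real.rpow_lt_rpow_of_exponent_lt (by linarith) (by linarith)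
  have m2 : (p : ℝ) ^ (1 - 2 * s.re) < (p : ℝ) ^ (-2 : ℝ) :=
    Real.rpow_lt_rpow_of_exponent_lt (by linarith) (by linarith)
  have m3 : (p : ℝ) * (p : ℝ) ^ (-(3 / 2) : ℝ) = (p : ℝ) ^ (-(1 / 2) : ℝ) := by
    rw [← Real.rpow_one_add' hp0.le (by norm_num)]
    norm_num
  have m4 : (p : ℝ) ^ (-(1 / 2) : ℝ) ≤ 3 / 5 := by
    have k1 : ((p : ℝ) ^ (-(1 / 2) : ℝ)) ^ 2 ≤ 1 / 3 := by
      rw [← Real.rpow_natCast, ← Real.rpow_mul hp0.le]
      norm_num
      rw [Real.rpow_neg_one]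
      rw [inv_le_comm₀ hp0 (by norm_num)]
      norm_num
      exact_mod_cast hp3
    have k2 : (0 : ℝ) ≤ (p : ℝ) ^ (-(1 / 2) : ℝ) := by positivity
    nlinarith
  have m5 : (p : ℝ) ^ (-2 : ℝ) ≤ 1 / 9 := by
    rw [Real.rpow_neg hp0.le]
    have k3 : (9 : ℝ) ≤ (p : ℝ) ^ (2 : ℝ) := by
      rw [Real.rpow_two]
      nlinarith
    rw [one_div]
    exact inv_anti₀ (by norm_num) k3
  have h3 : (1 : ℝ) ≤ p * (p : ℝ) ^ (-s.re) + (p : ℝ) ^ (1 - 2 * s.re) := by
    calc (1 : ℝ) = ‖(1 : ℂ)‖ := by simp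
      _ = ‖((p : ℂ) - (Np a b p : ℂ)) * (p : ℂ) ^ (-s) - (p : ℂ) ^ (1 - 2 * s)‖ := by rw [← h1]
      _ ≤ ‖((p : ℂ) - (Np a b p : ℂ)) * (p : ℂ) ^ (-s)‖ + ‖(p : ℂ) ^ (1 - 2 * s)‖ := norm_sub_le _ _
      _ ≤ p * (p : ℝ) ^ (-s.re) + (p : ℝ) ^ (1 - 2 * s.re) := by
        rw [norm_mul, n1, n2]
        gcongr
  have h4 : (p : ℝ) * (p : ℝ) ^ (-s.re) ≤ 3 / 5 := by
    calc (p : ℝ) * (p : ℝ) ^ (-s.re) ≤ p * (p : ℝ) ^ (-(3 / 2) : ℝ) := by gcongr
      _ = (p : ℝ) ^ (-(1 / 2) : ℝ) := m3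
      _ ≤ 3 / 5 := m4
  linarith

lemma tgi_eq (a b : ℤ) (s : ℂ) (p : ℕ) : tgi a b s p =
    if p.Prime ∧ ¬ ((p : ℤ) ∣ 2 * (-4 * a ^ 3 - 27 * b ^ 2)) then (ef a b p s)⁻¹ else 1 := rfl

lemma not_two {a b : ℤ} {p : ℕ} (h : ¬ ((p : ℤ) ∣ 2 * (-4 * a ^ 3 - 27 * b ^ 2))) : p ≠ 2 := by
  rintro rfl
  exact h (Dvd.intro _ rfl)

/-! ### change of the equation -/

lemma disc_scale (a b e : ℤ) : 2 * (-4 * (a * e ^ 4) ^ 3 - 27 * (b * e ^ 6) ^ 2) =
    2 * (-4 * a ^ 3 - 27 * b ^ 2) * e ^ 12 := by ring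

/-- **T1**: change of the equation -/
theorem rz_scale {a b e : ℤ} (h0 : 4 * a ^ 3 + 27 * b ^ 2 ≠ 0) (he : e ≠ 0) (h : RZ2 a b) :
    RZ2 (a * e ^ 4) (b * e ^ 6) := by
  obtain ⟨F, k1, k2, k3, k4⟩ := h
  set S : Finset ℕ := e.natAbs.primeFactors.filter
    fun p => ¬ ((p : ℤ) ∣ 2 * (-4 * a ^ 3 - 27 * b ^ 2)) with hS
  have hSp : ∀ p ∈ S, p.Prime := fun p hp => Nat.prime_of_mem_primeFactors (Finset.mem_filter.1 hp).1
  have hSm : ∀ p : ℕ, p ∈ S ↔ p.Prime ∧ (p : ℤ) ∣ e ∧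
      ¬ ((p : ℤ) ∣ 2 * (-4 * a ^ 3 - 27 * b ^ 2)) := by
    intro p
    rw [hS, Finset.mem_filter, Nat.mem_primeFactors]
    constructor
    · rintro ⟨⟨h1, h2, -⟩, h3⟩
      exact ⟨h1, Int.natCast_dvd.2 h2, h3⟩
    · rintro ⟨h1, h2, h3⟩
      exact ⟨⟨h1, Int.natCast_dvd.1 h2, Int.natAbs_ne_zero.2 he⟩, h3⟩
  refine ⟨fun s => F s * ∏ p ∈ S, ef a b p s, ?_, ?_, ?_, ?_⟩
  · refine k1.mul ?_
    exact Differentiable.fun_finsetProd fun p hp => ef_diff a b (hSp p hp)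
  · intro s hs
    have h1 := k2 s hs
    have h2 : HasProd (fun p : ℕ => if p ∈ S then ef a b p s else 1) (∏ p ∈ S, ef a b p s) := by
      have h3 : HasProd (fun p : ℕ => if p ∈ S then ef a b p s else 1)
        (∏ p ∈ S, if p ∈ S then ef a b p s else 1) :=
        hasProd_prod_of_ne_finset_one (fun p hp => if_neg hp)
      rwa [Finset.prod_congr rfl fun p hp => if_pos hp] at h3
    refine (congrArg (fun g => HasProd g (F s * ∏ p ∈ S, ef a b p s)) (funext fun p => ?_)).mp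
      (h1.mul h2)
    rw [tgi_eq, tgi_eq, disc_scale]
    by_cases hp : p.Prime
    · have hpi : Prime (p : ℤ) := Nat.prime_iff_prime_int.1 hp
      by_cases hd : ((p : ℤ) ∣ 2 * (-4 * a ^ 3 - 27 * b ^ 2))
      · rw [if_neg (fun h => h.2 hd), if_neg (fun h => ((hSm p).1 h).2.2 hd),
          if_neg (fun h => h.2 (Dvd.dvd.mul_right hd _)), one_mul]
      · by_cases hpe : (p : ℤ) ∣ e
        · rw [if_pos ⟨hp, hd⟩, if_pos ((hSm p).2 ⟨hp, hpe, hd⟩),
            if_neg (fun h => h.2 (Dvd.dvd.mul_left (dvd_pow hpe (by norm_num)) _))]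
          exact inv_mul_cancel₀ (ef_ne a b hp (not_two hd) hs)
        · have hd2 : ¬ ((p : ℤ) ∣ 2 * (-4 * a ^ 3 - 27 * b ^ 2) * e ^ 12) := by
            intro h
            rcases hpi.dvd_or_dvd h with h3 | h3
            · exact hd h3
            · exact hpe (hpi.dvd_of_dvd_pow h3)
          rw [if_pos ⟨hp, hd⟩, if_neg (fun h => hpe ((hSm p).1 h).2.1), mul_one, if_pos ⟨hp, hd2⟩]
          unfold ef
          rw [Np_scale hp hpe]
    · rw [if_neg (fun h => hp h.1), if_neg (fun h => hp (hSp p h)), if_neg (fun h => hp h.1), one_mul]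
  · refine mul_ne_zero k3 ?_
    exact Finset.prod_ne_zero_iff.2 fun p hp => ef_one a b (hSp p hp)
  · refine pt_of_so ?_
    have h5 := so_of_pt h0 k4
    refine (h5.image fun q => ((e : ℚ) ^ 2 * q.1, (e : ℚ) ^ 3 * q.2)).subset ?_
    rintro ⟨x, y⟩ hq
    have hq' : y ^ 2 = x ^ 3 + ((a * e ^ 4 : ℤ) : ℚ) * x + ((b * e ^ 6 : ℤ) : ℚ) := hq
    push_cast at hq'
    have he' : (e : ℚ) ≠ 0 := by exact_mod_cast he
    refine ⟨(x / (e : ℚ) ^ 2, y / (e : ℚ) ^ 3), ?_, ?_⟩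
    · show (y / (e : ℚ) ^ 3) ^ 2 = (x / (e : ℚ) ^ 2) ^ 3 + (a : ℚ) * (x / (e : ℚ) ^ 2) + (b : ℚ)
      field_simp
      linear_combination hq'
    · show ((e : ℚ) ^ 2 * (x / (e : ℚ) ^ 2), (e : ℚ) ^ 3 * (y / (e : ℚ) ^ 3)) = (x, y)
      rw [mul_div_cancel₀ _ (pow_ne_zero _ he'), mul_div_cancel₀ _ (pow_ne_zero _ he')]

/-! ### the same set of bad primes -/

/-- change to another curve with the same numbers of points -/
theorem rz_same {a b a' b' : ℤ}
    (h1 : ∀ p : ℕ, p.Prime → (((p : ℤ) ∣ 2 * (-4 * a' ^ 3 - 27 * b' ^ 2)) ↔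
      ((p : ℤ) ∣ 2 * (-4 * a ^ 3 - 27 * b ^ 2))))
    (h2 : ∀ p : ℕ, p.Prime → ¬ ((p : ℤ) ∣ 2 * (-4 * a ^ 3 - 27 * b ^ 2)) → Np a b p = Np a' b' p)
    (h3 : Finite (WeierstrassCurve.Affine.Point (WeierstrassCurve.toAffine (Sc a b))) →
      (So a' b').Finite) (h : RZ2 a b) : RZ2 a' b' := by
  obtain ⟨F, k1, k2, k3, k4⟩ := h
  refine ⟨F, k1, fun s hs => ?_, k3, pt_of_so (h3 k4)⟩
  refine (congrArg (fun g => HasProd g (F s)) (funext fun p => ?_)).mp (k2 s hs)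
  rw [tgi_eq, tgi_eq]
  by_cases hp : p.Prime
  · by_cases hd : ((p : ℤ) ∣ 2 * (-4 * a ^ 3 - 27 * b ^ 2))
    · rw [if_neg (fun h => h.2 hd), if_neg (fun h => h.2 ((h1 p hp).2 hd))]
    · rw [if_pos ⟨hp, hd⟩, if_pos ⟨hp, fun h => hd ((h1 p hp).1 h)⟩]
      unfold ef
      rw [h2 p hp hd]
  · rw [if_neg (fun h => hp h.1), if_neg (fun h => hp h.1)]

/-- finiteness of the set of the solutions under a 2-isogeny -/
theorem fin_iso {a b a' b' r r' A B : ℤ}
    (h : ∀ x : ℚ, x ^ 3 + a * x + b = (x - r) * ((x - r) ^ 2 + A * (x - r) + B))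
    (h' : ∀ x : ℚ, x ^ 3 + a' * x + b' =
      (x - r') * ((x - r') ^ 2 - 2 * A * (x - r') + (A ^ 2 - 4 * B)))
    (hf : (So a b).Finite) : (So a' b').Finite := by
  set T : Set ℚ := {(r' : ℚ)} ∪ ⋃ t ∈ Prod.fst '' So a b,
    {x : ℚ | (x - r') ^ 2 - (2 * A + 4 * (t - r)) * (x - r') + (A ^ 2 - 4 * B) = 0} with hT
  have hTf : T.Finite := by
    refine (Set.finite_singleton _).union ?_
    refine (hf.image _).biUnion fun t _ => ?_
    -- a quadratic equation has finitely many solutions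
    by_cases hne : ∃ x₀ : ℚ, (x₀ - r') ^ 2 - (2 * A + 4 * (t - r)) * (x₀ - r') + (A ^ 2 - 4 * B) = 0
    · obtain ⟨x₀, hx₀⟩ := hne
      refine (Set.toFinite ({x₀, (2 * A + 4 * (t - r)) + 2 * r' - x₀} : Set ℚ)).subset ?_
      intro x hx
      have hx' : (x - r') ^ 2 - (2 * A + 4 * (t - r)) * (x - r') + (A ^ 2 - 4 * B) = 0 := hx
      have h3 : (x - x₀) * (x - ((2 * A + 4 * (t - r)) + 2 * r' - x₀)) = 0 := by
        linear_combination hx' - hx₀
      rcases mul_eq_zero.1 h3 with h4 | h4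
      · left
        exact sub_eq_zero.1 h4
      · right
        exact sub_eq_zero.1 h4
    · convert Set.finite_empty (α := ℚ)
      ext x
      simp only [Set.mem_ofPred_eq, Set.mem_empty_iff_false, iff_false]
      exact fun hx => hne ⟨x, hx⟩
  have hY : ∀ c : ℚ, {y : ℚ | y ^ 2 = c}.Finite := by
    intro c
    by_cases hne : ∃ y₀ : ℚ, y₀ ^ 2 = c
    · obtain ⟨y₀, hy₀⟩ := hne
      refine (Set.toFinite ({y₀, -y₀} : Set ℚ)).subset ?_
      intro y hy
      have hy' : y ^ 2 = c := hy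
      have h3 : (y - y₀) * (y - (-y₀)) = 0 := by linear_combination hy' - hy₀
      rcases mul_eq_zero.1 h3 with h4 | h4
      · left
        exact sub_eq_zero.1 h4
      · right
        exact sub_eq_zero.1 h4
    · convert Set.finite_empty (α := ℚ)
      ext y
      simp only [Set.mem_ofPred_eq, Set.mem_empty_iff_false, iff_false]
      exact fun hy => hne ⟨y, hy⟩
  have hfin : (⋃ x ∈ T, (fun y : ℚ => (x, y)) ''
      {y : ℚ | y ^ 2 = x ^ 3 + (a' : ℚ) * x + (b' : ℚ)}).Finite :=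
    hTf.biUnion fun x _ => (hY _).image _
  refine hfin.subset ?_
  rintro ⟨x, y⟩ hq
  have hq' : y ^ 2 = x ^ 3 + (a' : ℚ) * x + (b' : ℚ) := hq
  rw [Set.mem_iUnion₂]
  refine ⟨x, ?_, y, hq', rfl⟩
  by_cases hx : x = r'
  · left
    exact hx
  right
  have hx0 : x - r' ≠ 0 := sub_ne_zero.2 hx
  rw [Set.mem_iUnion₂]
  set u : ℚ := x - r' with hu
  have hq2 : y ^ 2 = u * (u ^ 2 - 2 * A * u + (A ^ 2 - 4 * B)) := by rw [hq', h' x]
  -- the image point
  refine ⟨y ^ 2 / (4 * u ^ 2) + r, ⟨(y ^ 2 / (4 * u ^ 2) + r,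
    y * ((A ^ 2 - 4 * B) - u ^ 2) / (8 * u ^ 2)), ?_, rfl⟩, ?_⟩
  · show (y * ((A ^ 2 - 4 * B) - u ^ 2) / (8 * u ^ 2)) ^ 2 =
      (y ^ 2 / (4 * u ^ 2) + r) ^ 3 + (a : ℚ) * (y ^ 2 / (4 * u ^ 2) + r) + (b : ℚ)
    rw [h (y ^ 2 / (4 * u ^ 2) + r), add_sub_cancel_right]
    have e1 : (y * ((A ^ 2 - 4 * B : ℚ) - u ^ 2) / (8 * u ^ 2)) ^ 2 =
        y ^ 2 * ((A ^ 2 - 4 * B : ℚ) - u ^ 2) ^ 2 / (64 * u ^ 4) := by
      field_simp
      norm_num
    rw [e1, hq2]
    field_simp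
    ring
  · show u ^ 2 - (2 * A + 4 * (y ^ 2 / (4 * u ^ 2) + r - r)) * u + (A ^ 2 - 4 * B) = 0
    rw [hq2]
    field_simp
    ring

/-- **T2**: 2-isogenies -/
theorem rz_iso {a b a' b' r r' A B : ℤ} (h0 : 4 * a ^ 3 + 27 * b ^ 2 ≠ 0)
    (hd : ∀ p : ℕ, p.Prime → (((p : ℤ) ∣ 2 * (-4 * a' ^ 3 - 27 * b' ^ 2)) ↔
      ((p : ℤ) ∣ 2 * (-4 * a ^ 3 - 27 * b ^ 2))))
    (hB : ∀ p : ℕ, p.Prime → (p : ℤ) ∣ B → (p : ℤ) ∣ 2 * (-4 * a ^ 3 - 27 * b ^ 2))
    (hr : r * 3 = A) (ha : a = -3 * r ^ 2 + B) (hb : b = 2 * r ^ 3 - B * r)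
    (hr' : 3 * r' = -2 * A) (ha' : a' = -3 * r' ^ 2 + (A ^ 2 - 4 * B))
    (hb' : b' = 2 * r' ^ 3 - (A ^ 2 - 4 * B) * r') (h : RZ2 a b) : RZ2 a' b' := by
  have e1 : ∀ x : ℤ, x ^ 3 + a * x + b = (x - r) * ((x - r) ^ 2 + A * (x - r) + B) := by
    intro x
    rw [ha, hb, ← hr]
    ring
  have e2 : ∀ x : ℤ, x ^ 3 + a' * x + b' =
      (x - r') * ((x - r') ^ 2 - 2 * A * (x - r') + (A ^ 2 - 4 * B)) := by
    intro x
    rw [ha', hb']
    linear_combination (x - r') ^ 2 * hr'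
  have f1 : ∀ x : ℚ, x ^ 3 + a * x + b = (x - r) * ((x - r) ^ 2 + A * (x - r) + B) := by
    intro x
    rw [ha, hb, ← hr]
    push_cast
    ring
  have hr2 : (3 : ℚ) * r' = -2 * A := by exact_mod_cast hr'
  have f2 : ∀ x : ℚ, x ^ 3 + a' * x + b' =
      (x - r') * ((x - r') ^ 2 - 2 * A * (x - r') + (A ^ 2 - 4 * B)) := by
    intro x
    rw [ha', hb']
    push_cast
    linear_combination (x - r') ^ 2 * hr2
  refine rz_same hd (fun p hp hpd => Np_iso hp (not_two hpd) (fun hpB => hpd (hB p hp hpB)) e1 e2)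
    (fun hf => fin_iso f1 f2 (so_of_pt h0 hf)) h

lemma prime_dvd_mul_pow {p : ℕ} (hp : p.Prime) {k m : ℤ} (n : ℕ) (hn : n ≠ 0) :
    ((p : ℤ) ∣ k * m ^ n) ↔ ((p : ℤ) ∣ k ∨ (p : ℤ) ∣ m) := by
  have hpi : Prime (p : ℤ) := Nat.prime_iff_prime_int.1 hp
  rw [hpi.dvd_mul]
  refine or_congr_right ⟨fun h => hpi.dvd_of_dvd_pow h, fun h => dvd_pow h hn⟩

/-- the 2-isogeny for `ℚ(√-7)` -/
theorem rz_seven {m : ℤ} (hm : m ≠ 0) (h : RZ2 (-35 * m ^ 2) (-98 * m ^ 3)) :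
    RZ2 (-595 * m ^ 2) (-5586 * m ^ 3) := by
  refine rz_iso (r := 7 * m) (r' := -14 * m) (A := 21 * m) (B := 112 * m ^ 2) ?_ ?_ ?_
    (by ring) (by ring) (by ring) (by ring) (by ring) (by ring) h
  · have e : 4 * (-35 * m ^ 2) ^ 3 + 27 * (-98 * m ^ 3) ^ 2 = 87808 * m ^ 6 := by ring
    rw [e]
    exact mul_ne_zero (by norm_num) (pow_ne_zero _ hm)
  · intro p hp
    have e1 : 2 * (-4 * (-595 * m ^ 2) ^ 3 - 27 * (-5586 * m ^ 3) ^ 2) = 175616 * m ^ 6 := by ring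
    have e2 : 2 * (-4 * (-35 * m ^ 2) ^ 3 - 27 * (-98 * m ^ 3) ^ 2) = -(175616 * m ^ 6) := by ring
    rw [e1, e2, dvd_neg]
  · intro p hp hpB
    have e2 : 2 * (-4 * (-35 * m ^ 2) ^ 3 - 27 * (-98 * m ^ 3) ^ 2) = -(175616 * m ^ 6) := by ring
    rw [e2, dvd_neg, prime_dvd_mul_pow hp 6 (by norm_num)]
    rw [prime_dvd_mul_pow hp 2 (by norm_num)] at hpB
    rcases hpB with h1 | h1
    · left
      exact h1.trans ⟨1568, by norm_num⟩
    · exact Or.inr h1

/-- the 2-isogeny for `ℚ(√-3)` -/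
theorem rz_three {m : ℤ} (hm : m ≠ 0) (h : RZ2 0 (m ^ 3)) : RZ2 (-15 * m ^ 2) (22 * m ^ 3) := by
  refine rz_iso (r := -m) (r' := 2 * m) (A := -3 * m) (B := 3 * m ^ 2) ?_ ?_ ?_
    (by ring) (by ring) (by ring) (by ring) (by ring) (by ring) h
  · have e : 4 * 0 ^ 3 + 27 * (m ^ 3) ^ 2 = 27 * m ^ 6 := by ring
    rw [e]
    exact mul_ne_zero (by norm_num) (pow_ne_zero _ hm)
  · intro p hp
    have e1 : 2 * (-4 * (-15 * m ^ 2) ^ 3 - 27 * (22 * m ^ 3) ^ 2) = 864 * m ^ 6 := by ring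
    have e2 : 2 * (-4 * 0 ^ 3 - 27 * (m ^ 3) ^ 2) = -(54 * m ^ 6) := by ring
    rw [e1, e2, dvd_neg, prime_dvd_mul_pow hp 6 (by norm_num), prime_dvd_mul_pow hp 6 (by norm_num)]
    have hpi : Prime (p : ℤ) := Nat.prime_iff_prime_int.1 hp
    refine or_congr_left ⟨fun h => ?_, fun h => h.trans ⟨16, by norm_num⟩⟩
    have h3 : (864 : ℤ) = 54 * 2 ^ 4 := by norm_num
    rw [h3] at h
    rcases hpi.dvd_or_dvd h with h4 | h4
    · exact h4
    · exact (hpi.dvd_of_dvd_pow h4).trans ⟨27, by norm_num⟩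
  · intro p hp hpB
    have e2 : 2 * (-4 * 0 ^ 3 - 27 * (m ^ 3) ^ 2) = -(54 * m ^ 6) := by ring
    rw [e2, dvd_neg, prime_dvd_mul_pow hp 6 (by norm_num)]
    rw [prime_dvd_mul_pow hp 2 (by norm_num)] at hpB
    rcases hpB with h1 | h1
    · left
      exact h1.trans ⟨18, by norm_num⟩
    · exact Or.inr h1

end Pool.Agent.L0h75.IS
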