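import Pool.Agent.L0h75.IS.Al3
import Pool.Agent.L0h4.T6.Sha3

/-!
# The isogeny of degree seven and the 2-primary part of the Tate-Shafarevich group
-/

set_option autoImplicit false

attribute [-instance] DivisionRing.toRatAlgebra

namespace Pool.Agent.L0h75.IS

open WeierstrassCurve
open Pool.Agent.TH841.SH.D (Pt act Gal Coch IsCoc IsCob LocTriv cob cob_add cob_neg cob_zero)
open Pool.Agent.TH841.NF.D (IsShaCoc shaCoc Sha)

/-- a root of `u² + u + 2` -/
lemma ex_uv (K : Type) [Field K] : ∃ u : AlgebraicClosure K, u ^ 2 + u + 2 = 0 := by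
  obtain ⟨z, hz⟩ := IsAlgClosed.exists_root (Polynomial.X ^ 2 + Polynomial.X + Polynomial.C 2 :
    Polynomial (AlgebraicClosure K)) (by
      have : (Polynomial.X ^ 2 + Polynomial.X + Polynomial.C 2 :
        Polynomial (AlgebraicClosure K)).degree = 2 := by compute_degree!
      rw [this]
      norm_num)
  refine ⟨z, ?_⟩
  have := hz
  unfold Polynomial.IsRoot at this
  simpa using this

/-- a root of `u² + u + 2` -/
noncomputable def ub : AlgebraicClosure ℚ := Classical.choose (ex_uv ℚ)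

/-- the other root of `u² + u + 2` -/
noncomputable def vb : AlgebraicClosure ℚ := -1 - ub

lemma uvb : UV ub vb where
  hu := Classical.choose_spec (ex_uv ℚ)
  hv := rfl

section
variable {n n' r : ℚ} (hn : n ≠ 0) (hr : r ≠ 0) (hn' : n' = -7 * r ^ 2 * n)

/-- the image of a function -/
noncomputable def push (f : Coch (S7 n)) : Coch (S7 n') := fun σ => psi uvb hn hr hn' (f σ)

lemma push_add (f g : Coch (S7 n)) : push hn hr hn' (f + g) = push hn hr hn' f + push hn hr hn' g := by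
  funext σ
  exact map_add (psi uvb hn hr hn') (f σ) (g σ)

lemma push_coc {f : Coch (S7 n)} (hf : IsCoc (S7 n) f) : IsCoc (S7 n') (push hn hr hn' f) := by
  refine ⟨hf.1.comp _, fun σ τ => ?_⟩
  show psi uvb hn hr hn' (f (σ * τ)) = psi uvb hn hr hn' (f σ) +
    act (S7 n') σ.toAlgHom (psi uvb hn hr hn' (f τ))
  rw [act_psi σ.toAlgHom uvb uvb hn hr hn', hf.2, map_add]

lemma push_cob {f : Coch (S7 n)} (hf : IsCob (S7 n) f) : IsCob (S7 n') (push hn hr hn' f) := by
  obtain ⟨P, hP⟩ := hf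
  refine ⟨psi uvb hn hr hn' P, fun σ => ?_⟩
  show psi uvb hn hr hn' (f σ) = act (S7 n') σ.toAlgHom (psi uvb hn hr hn' P) -
    psi uvb hn hr hn' P
  rw [act_psi σ.toAlgHom uvb uvb hn hr hn', hP, map_sub]

lemma push_loc {K : Type} [Field K] [Algebra ℚ K] {f : Coch (S7 n)} (hf : LocTriv (S7 n) K f) :
    LocTriv (S7 n') K (push hn hr hn' f) := by
  have : CharZero (AlgebraicClosure K) := algebraRat.charZero _
  intro ι
  obtain ⟨P, hP⟩ := hf ι
  have hl : UV (ι ub) (ι vb) := uvb.map ι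
  refine ⟨psi hl hn hr hn' P, fun τ σ h => ?_⟩
  show act (S7 n') ι (psi uvb hn hr hn' (f σ)) = act (S7 n') (τ.toAlgHom.restrictScalars ℚ)
    (psi hl hn hr hn' P) - psi hl hn hr hn' P
  rw [act_psi ι uvb hl hn hr hn',
    act_psi (τ.toAlgHom.restrictScalars ℚ) hl hl hn hr hn', hP τ σ h, map_sub]

lemma push_sha {f : Coch (S7 n)} (hf : IsShaCoc (S7 n) f) : IsShaCoc (S7 n') (push hn hr hn' f) :=
  ⟨push_coc hn hr hn' hf.1, fun v => push_loc hn hr hn' (hf.2.1 v),
    fun v => push_loc hn hr hn' (hf.2.2 v)⟩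

end

/-- **the isogeny of degree seven and the 2-primary part** -/
theorem sha_seven {n n' r s : ℚ} (hn : n ≠ 0) (hr : r ≠ 0) (hs : s ≠ 0)
    (hn' : n' = -7 * r ^ 2 * n) (hc : n = -7 * s ^ 2 * n') (hrs : r * s = 1 / 7) (k : ℕ)
    (h : ∀ x : Sha (S7 n), 2 ^ k • x = 0 → x = 0) (x : Sha (S7 n')) (hx : 2 ^ k • x = 0) :
    x = 0 := by
  have hn0' : n' ≠ 0 := by
    rintro rfl
    apply hn
    rw [hc, mul_zero]
  obtain ⟨f, rfl⟩ := QuotientAddGroup.mk_surjective x
  have h1 : IsCob (S7 n') (2 ^ k • f : shaCoc (S7 n')).1 := (Pool.Agent.L0h4.T6.cls_zero _).1 hx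
  -- the preimage
  set g : shaCoc (S7 n) := ⟨push hn0' hs hc f.1, push_sha hn0' hs hc f.2⟩ with hg
  have hnsmul : ∀ k : ℕ, push hn0' hs hc (k • f.1) = k • push hn0' hs hc f.1 := by
    intro k
    induction k with
    | zero =>
      rw [zero_smul, zero_smul]
      funext σ
      exact map_zero (psi uvb hn0' hs hc)
    | succ k ih => rw [succ_nsmul, push_add, ih, succ_nsmul]
  have h2 : (QuotientAddGroup.mk g : Sha (S7 n)) = 0 := by
    apply h
    have h3 : IsCob (S7 n) (2 ^ k • g : shaCoc (S7 n)).1 := by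
      have e : (2 ^ k • g : shaCoc (S7 n)).1 = push hn0' hs hc (2 ^ k • f.1) := by
        rw [hnsmul]
        rfl
      rw [e]
      exact push_cob hn0' hs hc h1
    exact (Pool.Agent.L0h4.T6.cls_zero _).2 h3
  have h4 := push_cob hn hr hn' ((Pool.Agent.L0h4.T6.cls_zero _).1 h2)
  have h5 : push hn hr hn' g.1 = (7 : ℕ) • f.1 := by
    funext σ
    show psi uvb hn hr hn' (psi uvb hn0' hs hc (f.1 σ)) = (7 : ℕ) • f.1 σ
    exact psi_psi uvb hn0' hn hs hr hc hn' (by rw [mul_comm]; exact hrs) _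
  rw [h5] at h4
  refine (Pool.Agent.L0h4.T6.cls_zero f).2 ?_
  have hco : IsCoprime (7 : ℤ) (2 ^ k) := by
    apply IsCoprime.pow_right
    exact ⟨1, -3, by norm_num⟩
  obtain ⟨u, w, huw⟩ := hco
  have e : f.1 = u • ((7 : ℕ) • f.1) + w • ((2 ^ k : ℕ) • f.1) := by
    rw [← natCast_zsmul, ← natCast_zsmul, smul_smul, smul_smul, ← add_smul]
    push_cast
    rw [huw, one_smul]
  have m3 : (7 : ℕ) • f.1 ∈ cob (S7 n') := h4
  have m2 : (2 ^ k : ℕ) • f.1 ∈ cob (S7 n') := h1
  have := (cob (S7 n')).add_mem ((cob (S7 n')).zsmul_mem m3 u) ((cob (S7 n')).zsmul_mem m2 w)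
  rw [← e] at this
  exact this

/-- the twist by `-7`, all powers of two -/
theorem sha_seven_pow {n : ℚ} (hn : n ≠ 0) (k : ℕ)
    (h : ∀ x : Sha (S7 n), 2 ^ k • x = 0 → x = 0) (x : Sha (S7 (-7 * n))) (hx : 2 ^ k • x = 0) :
    x = 0 :=
  sha_seven (r := 1) (s := 1 / 7) hn one_ne_zero (by norm_num) (by ring) (by ring) (by norm_num) k
    h x hx

/-- **the twist by `-7`: no element of order two** -/
theorem sha_seven_two {n : ℚ} (hn : n ≠ 0) (h : ∀ x : Sha (S7 n), x + x = 0 → x = 0)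
    (x : Sha (S7 (-7 * n))) (hx : x + x = 0) : x = 0 := by
  refine sha_seven_pow hn 1 (fun y hy => h y ?_) x ?_
  · rwa [pow_one, two_nsmul] at hy
  · rw [pow_one, two_nsmul]
    exact hx

/-- two steps: multiplication of `n` by a square -/
theorem sha_sq {n t : ℚ} (hn : n ≠ 0) (ht : t ≠ 0) (k : ℕ)
    (h : ∀ x : Sha (S7 n), 2 ^ k • x = 0 → x = 0) (x : Sha (S7 (n * t ^ 2))) (hx : 2 ^ k • x = 0) :
    x = 0 := by
  have h1 := sha_seven (n' := -7 * n) (r := 1) (s := 1 / 7) hn one_ne_zero (by norm_num) (by ring)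
    (by ring) (by norm_num) k h
  exact sha_seven (n := -7 * n) (n' := n * t ^ 2) (r := t / 7) (s := 1 / t)
    (mul_ne_zero (by norm_num) hn) (div_ne_zero ht (by norm_num)) (one_div_ne_zero ht)
    (by ring) (by field_simp) (by field_simp) k h1 x hx

end Pool.Agent.L0h75.IS
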