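import Pool.Agent.R939.EI.IsoH
import Pool.Agent.Y700.VC

/-!
# The endomorphisms `u`, `u² + u + 2 = 0`, of `y² = x³ - 35 n² x - 98 n³`
-/

set_option autoImplicit false
set_option linter.unusedSectionVars false
set_option linter.unusedVariables false

open WeierstrassCurve
open scoped Classical

namespace Pool.Agent.L0h75.IS

open Pool.Agent.R939.EI Pool.Agent.Y700

section
variable {F : Type} [Field F] [CharZero F] [NeZero (2 : F)]

/-- the curve `y² = x³ - 35 n² x - 98 n³` -/
def SF (n : F) : WeierstrassCurve F := ⟨0, 0, 0, -35 * n ^ 2, -98 * n ^ 3⟩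

/-- the point of order two -/
def ee (n u : F) : F := -n * (4 + u)

def aa (n u : F) : F := -3 * n * (4 + u)

def bb (n u : F) : F := 7 * n ^ 2 * (1 + 3 * u)

/-- `u` and `v` are the two roots -/
structure UV (u v : F) : Prop where
  hu : u ^ 2 + u + 2 = 0
  hv : v = -1 - u

variable {n u v : F}

lemma UV.symm (h : UV u v) : UV v u where
  hu := by rw [h.hv]; linear_combination h.hu
  hv := by rw [h.hv]; ring

lemma UV.mul (h : UV u v) : u * v = 2 := by
  rw [h.hv]
  linear_combination -h.hu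

lemma UV.ne (h : UV u v) : u ≠ 0 := by
  intro h0
  have := h.hu
  rw [h0] at this
  norm_num at this

lemma bb_ne (h : UV u v) (hn : n ≠ 0) : bb n u ≠ 0 := by
  have h1 : (1 + 3 * u) ≠ 0 := by
    intro h0
    have h2 : (1 + 3 * u) * (2 + 3 * u) = -16 := by linear_combination 9 * h.hu
    rw [h0, zero_mul] at h2
    norm_num at h2
  exact mul_ne_zero (mul_ne_zero (by norm_num) (pow_ne_zero _ hn)) h1

/-- the data of the 2-isogeny -/
lemma dat (h : UV u v) (hn : n ≠ 0) : Dat (aa n u) (bb n u) (aa n v) (bb n v) u where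
  hb := bb_ne h hn
  hb' := bb_ne h.symm hn
  hu := h.ne
  e1 := by
    rw [h.hv]
    unfold aa
    linear_combination (-3 * n * (4 - u)) * h.hu
  e2 := by
    rw [h.hv]
    unfold aa bb
    linear_combination (n ^ 2 * (-58 - 21 * u ^ 3 + 7 * u ^ 2 + 35 * u)) * h.hu

/-! ### the maps -/

/-- general additivity of the 2-isogeny -/
lemma isoF_add' {a b a' b' u : F} (h : Dat a b a' b' u) (P Q : (Cu a b).Point) :
    isoF h (P + Q) = isoF h P + isoF h Q := by
  have key : ∀ (W W' : WeierstrassCurve.Affine F) (hW : W = Cu a b) (hW' : W' = Cu a' b'),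
      (∀ P Q : W.Point, isoW hW hW' h (P + Q) = isoW hW hW' h P + isoW hW hW' h Q) →
      ∀ P Q : (Cu a b).Point, isoF h (P + Q) = isoF h P + isoF h Q := by
    intro W W' hW hW' H
    subst hW hW'
    exact H
  exact key _ _ (bc a b F) (bc a' b' F) (isoL_add F h) P Q

variable (h : UV u v) (hn : n ≠ 0)

include hn in
lemma SF_Δ : (SF n).Δ ≠ 0 := by
  have e : (SF n).Δ = -1404928 * n ^ 6 := by
    unfold SF WeierstrassCurve.Δ WeierstrassCurve.b₈ WeierstrassCurve.b₆ WeierstrassCurve.b₄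
      WeierstrassCurve.b₂
    ring
  rw [e]
  exact mul_ne_zero (by norm_num) (pow_ne_zero _ hn)

include h hn in
lemma Cu_Δ : (Cu (aa n u) (bb n u) : WeierstrassCurve F).Δ ≠ 0 := by
  have e : (Cu (aa n u) (bb n u) : WeierstrassCurve F).Δ =
      16 * (bb n u) ^ 2 * ((aa n u) ^ 2 - 4 * bb n u) := by
    unfold Cu WeierstrassCurve.Δ WeierstrassCurve.b₈ WeierstrassCurve.b₆ WeierstrassCurve.b₄
      WeierstrassCurve.b₂
    ring
  rw [e]
  exact mul_ne_zero (mul_ne_zero (by norm_num) (pow_ne_zero _ (bb_ne h hn))) (dat h hn).hd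

include h in
/-- `ee` is a root -/
lemma ee_root : -98 * n ^ 3 + ee n u * (-35 * n ^ 2) + ee n u ^ 3 = 0 := by
  unfold ee
  linear_combination (-n ^ 3 * (u + 11)) * h.hu

include h in
/-- to the equation with the point `(ee, 0)` at the origin -/
lemma vrT : VR (Cu (aa n u) (bb n u) : WeierstrassCurve F) (SF n) 1 (-ee n u) 0 0 where
  u0 := one_ne_zero
  e1 := by unfold Cu SF; ring
  e2 := by unfold Cu SF aa ee; ring
  e3 := by unfold Cu SF; ring
  e4 := by unfold Cu SF aa bb ee; linear_combination (3 * n ^ 2) * h.hu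
  e6 := by
    unfold Cu SF aa bb ee
    simp only
    linear_combination (n ^ 3 * (2 * u + 1)) * h.hu

include h in
/-- from the equation with the point `(ee, 0)` at the origin -/
lemma vrF : VR (SF n) (Cu (aa n u) (bb n u) : WeierstrassCurve F) 1 (ee n u) 0 0 where
  u0 := one_ne_zero
  e1 := by unfold Cu SF; ring
  e2 := by unfold Cu SF aa ee; ring
  e3 := by unfold Cu SF; ring
  e4 := by unfold Cu SF bb ee; linear_combination (-3 * n ^ 2) * h.hu
  e6 := by
    unfold Cu SF
    simp only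
    linear_combination -ee_root (n := n) h

/-- the endomorphism -/
noncomputable def al : (SF n).toAffine.Point → (SF n).toAffine.Point := fun P =>
  (vrF h.symm).fn (Cu_Δ h.symm hn) (isoF (dat h hn) ((vrT h).fn (SF_Δ hn) P))

lemma al_add (P Q : (SF n).toAffine.Point) : al h hn (P + Q) = al h hn P + al h hn Q := by
  unfold al
  rw [VR.fn_add, isoF_add', VR.fn_add]

/-! ### formulas -/

lemma sc_ext {W : WeierstrassCurve F} {x y x' y' : F} (h : W.toAffine.Nonsingular x y)
    (h' : W.toAffine.Nonsingular x' y') (hx : x = x') (hy : y = y') :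
    (Affine.Point.some x y h : W.toAffine.Point) = Affine.Point.some x' y' h' := by
  subst hx
  subst hy
  rfl

lemma al_zero : al h hn (0 : (SF n).toAffine.Point) = 0 := by
  have := al_add h hn 0 0
  rw [add_zero] at this
  exact left_eq_add.1 this

/-- the endomorphism at the point `(ee, 0)` -/
lemma al_x0 {x y : F} (hxy : (SF n).toAffine.Nonsingular x y) (hx : x = ee n u) :
    al h hn (Affine.Point.some x y hxy) = 0 := by
  unfold al
  rw [VR.fn_some, isoF_x0 (dat h hn) _ (by rw [hx]; ring)]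
  rfl

/-- the endomorphism at the other points -/
lemma al_some {x y : F} (hxy : (SF n).toAffine.Nonsingular x y) (hx : x ≠ ee n u) :
    ∃ h', al h hn (Affine.Point.some x y hxy) =
      (Affine.Point.some (y ^ 2 / (u ^ 2 * (x - ee n u) ^ 2) + ee n v)
        (y * (bb n u - (x - ee n u) ^ 2) / (u ^ 3 * (x - ee n u) ^ 2)) h' :
        (SF n).toAffine.Point) := by
  have hx0 : (1 : F) ^ 2 * x + -ee n u ≠ 0 := by
    intro h0
    apply hx
    linear_combination h0
  have hall : ∀ (x' y' : F) (h' : (SF n).toAffine.Nonsingular x' y'),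
      x' = y ^ 2 / (u ^ 2 * (x - ee n u) ^ 2) + ee n v →
      y' = y * (bb n u - (x - ee n u) ^ 2) / (u ^ 3 * (x - ee n u) ^ 2) →
      ∃ h'', (Affine.Point.some x' y' h' : (SF n).toAffine.Point) =
      Affine.Point.some (y ^ 2 / (u ^ 2 * (x - ee n u) ^ 2) + ee n v)
        (y * (bb n u - (x - ee n u) ^ 2) / (u ^ 3 * (x - ee n u) ^ 2)) h'' := by
    intro x' y' h' h1 h2
    subst h1
    subst h2
    exact ⟨h', rfl⟩
  unfold al
  rw [VR.fn_some, isoF_some (dat h hn) _ hx0, VR.fn_some]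
  have e1 : (1 : F) ^ 2 * x + -ee n u = x - ee n u := by ring
  have e2 : (1 : F) ^ 3 * y + 1 ^ 2 * 0 * x + 0 = y := by ring
  refine hall _ _ _ ?_ ?_
  · rw [e1, e2]
    ring
  · rw [e1, e2]
    ring

include h in
/-- the curve equation in factored form -/
lemma eqn {x y : F} (hxy : (SF n).toAffine.Equation x y) :
    y ^ 2 = (x - ee n u) * (x - ee n v) * (x - 7 * n) := by
  rw [Affine.equation_iff] at hxy
  unfold SF at hxy
  simp only at hxy
  have hv := h.hv
  unfold ee
  rw [hv]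
  linear_combination hxy + (n ^ 2 * (x - 7 * n)) * h.hu

/-- the composition with the conjugate -/
theorem al_al (P : (SF n).toAffine.Point) : al h.symm hn (al h hn P) = P + P := by
  have key : ∀ Q : (Cu (aa n v) (bb n v)).Point,
      (vrT h.symm).fn (SF_Δ hn) ((vrF h.symm).fn (Cu_Δ h.symm hn) Q) = Q := by
    intro Q
    match Q with
    | .zero => rfl
    | .some x y hxy =>
      rw [VR.fn_some, VR.fn_some]
      exact sc_ext _ _ (by ring) (by ring)
  have key2 : ∀ Q : (SF n).toAffine.Point,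
      (vrF h).fn (Cu_Δ h hn) ((vrT h).fn (SF_Δ hn) Q) = Q := by
    intro Q
    match Q with
    | .zero => rfl
    | .some x y hxy =>
      rw [VR.fn_some, VR.fn_some]
      exact sc_ext _ _ (by ring) (by ring)
  show (vrF h.symm.symm).fn (Cu_Δ h.symm.symm hn) (isoF (dat h.symm hn) ((vrT h.symm).fn (SF_Δ hn)
    ((vrF h.symm).fn (Cu_Δ h.symm hn) (isoF (dat h hn) ((vrT h).fn (SF_Δ hn) P))))) = P + P
  rw [key, dbl (dat h hn) (dat h.symm hn) h.mul, VR.fn_add, key2]

/-! ### the sum of the two endomorphisms -/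

include h in
lemma idA (X : F) : -(X - v * (ee n u - ee n v)) * (v ^ 2 * (X + ee n u - 7 * n) - 4 * X) =
    (bb n u - X ^ 2) * v ^ 3 + 8 * X ^ 2 := by
  rw [h.hv]
  unfold ee bb
  linear_combination (-2 * n ^ 2 * u ^ 3 - 6 * n ^ 2 * u ^ 2 - 6 * n ^ 2 * u - 2 * n ^ 2 +
    2 * n * u ^ 2 * X + 6 * n * u * X + 4 * n * X - u * X ^ 2 - 3 * X ^ 2) * h.hu

include h in
lemma idB (X : F) : (X - v * (ee n u - ee n v)) ^ 2 =
    v ^ 2 * (X + (ee n u - ee n v)) ^ 2 + u ^ 2 * X ^ 2 + 4 * X * (X + (ee n u - ee n v)) := by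
  rw [h.hv]
  unfold ee
  linear_combination (4 * n * u * X + 2 * n * X - 2 * X ^ 2) * h.hu

/-- the slope -/
def sl (n u v x y : F) : F :=
  -y * ((x - ee n u) - v * (ee n u - ee n v)) / (2 * (x - ee n u) * (x - ee n v))

include h in
lemma sl_symm (x y : F) : sl n v u x y = sl n u v x y := by
  unfold sl
  have e : (x - ee n v) - u * (ee n v - ee n u) = (x - ee n u) - v * (ee n u - ee n v) := by
    rw [h.hv]
    unfold ee
    ring
  rw [e]
  congr 1
  ring

include h in
lemma x1_eq {x y : F} (hxy : (SF n).toAffine.Equation x y) (hx : x ≠ ee n u) :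
    y ^ 2 / (u ^ 2 * (x - ee n u) ^ 2) = v ^ 2 * (x - ee n v) * (x - 7 * n) / (4 * (x - ee n u)) := by
  have hX : x - ee n u ≠ 0 := sub_ne_zero.2 hx
  have hu0 := h.ne
  have huv := h.mul
  rw [eqn h hxy, div_eq_div_iff (mul_ne_zero (pow_ne_zero _ hu0) (pow_ne_zero _ hX))
    (mul_ne_zero (by norm_num) hX)]
  linear_combination (-(x - ee n u) ^ 2 * (x - ee n v) * (x - 7 * n) * (u * v + 2)) * huv

include h in
lemma y1_eq {x y : F} (hx : x ≠ ee n u) :
    y * (bb n u - (x - ee n u) ^ 2) / (u ^ 3 * (x - ee n u) ^ 2) =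
      y * (bb n u - (x - ee n u) ^ 2) * v ^ 3 / (8 * (x - ee n u) ^ 2) := by
  have hX : x - ee n u ≠ 0 := sub_ne_zero.2 hx
  have hu0 := h.ne
  have huv := h.mul
  rw [div_eq_div_iff (mul_ne_zero (pow_ne_zero _ hu0) (pow_ne_zero _ hX))
    (mul_ne_zero (by norm_num) (pow_ne_zero _ hX))]
  linear_combination (-y * (bb n u - (x - ee n u) ^ 2) * (x - ee n u) ^ 2 *
    ((u * v) ^ 2 + 2 * (u * v) + 4)) * huv

include h in
/-- the point on the line -/
lemma line {x y : F} (hxy : (SF n).toAffine.Equation x y) (hx : x ≠ ee n u) (hx' : x ≠ ee n v) :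
    sl n u v x y * (y ^ 2 / (u ^ 2 * (x - ee n u) ^ 2) + ee n v - x) =
      y * (bb n u - (x - ee n u) ^ 2) / (u ^ 3 * (x - ee n u) ^ 2) + y := by
  have hX : x - ee n u ≠ 0 := sub_ne_zero.2 hx
  have hX' : x - ee n v ≠ 0 := sub_ne_zero.2 hx'
  rw [x1_eq h hxy hx, y1_eq h hx]
  have hA := idA (n := n) h (x - ee n u)
  have e1 : x - ee n u + ee n u - 7 * n = x - 7 * n := by ring
  rw [e1] at hA
  unfold sl
  have e2 : v ^ 2 * (x - ee n v) * (x - 7 * n) / (4 * (x - ee n u)) + ee n v - x =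
      (x - ee n v) * (v ^ 2 * (x - 7 * n) - 4 * (x - ee n u)) / (4 * (x - ee n u)) := by
    field_simp
    ring
  have e3 : y * (bb n u - (x - ee n u) ^ 2) * v ^ 3 / (8 * (x - ee n u) ^ 2) + y =
      y * ((bb n u - (x - ee n u) ^ 2) * v ^ 3 + 8 * (x - ee n u) ^ 2) / (8 * (x - ee n u) ^ 2) := by
    field_simp
  rw [e2, e3, ← hA]
  field_simp
  ring

include h in
lemma sq_slope {x y : F} (hxy : (SF n).toAffine.Equation x y) (hx : x ≠ ee n u) (hx' : x ≠ ee n v) :
    (sl n u v x y) ^ 2 = (y ^ 2 / (u ^ 2 * (x - ee n u) ^ 2) + ee n v) +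
      (y ^ 2 / (v ^ 2 * (x - ee n v) ^ 2) + ee n u) + x := by
  have hX : x - ee n u ≠ 0 := sub_ne_zero.2 hx
  have hX' : x - ee n v ≠ 0 := sub_ne_zero.2 hx'
  rw [x1_eq h hxy hx, x1_eq h.symm hxy hx']
  have hB := idB (n := n) h (x - ee n u)
  have e1 : x - ee n u + (ee n u - ee n v) = x - ee n v := by ring
  rw [e1] at hB
  have hsum : ee n u + ee n v = -7 * n := by
    rw [h.hv]
    unfold ee
    ring
  unfold sl
  have e2 : (-y * ((x - ee n u) - v * (ee n u - ee n v)) / (2 * (x - ee n u) * (x - ee n v))) ^ 2 =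
      y ^ 2 * ((x - ee n u) - v * (ee n u - ee n v)) ^ 2 / (4 * (x - ee n u) ^ 2 * (x - ee n v) ^ 2) := by
    field_simp
    norm_num
  rw [e2, hB, eqn h hxy]
  field_simp
  linear_combination (-4 * (x - ee n u) * (x - ee n v)) * hsum

lemma neg_pt {x y : F} (hxy : (SF n).toAffine.Nonsingular x y) :
    ∃ h', -(Affine.Point.some x y hxy : (SF n).toAffine.Point) = Affine.Point.some x (-y) h' := by
  have e : (SF n).toAffine.negY x y = -y := by
    unfold Affine.negY SF
    ring
  have h1 := Affine.Point.neg_some (W' := (SF n).toAffine) hxy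
  rw [h1]
  have h2 : (SF n).toAffine.Nonsingular x (-y) := by
    rw [← e]
    exact (Affine.nonsingular_neg ..).2 hxy
  exact ⟨h2, sc_ext _ _ rfl e⟩

/-- the generic case -/
theorem al_gen {x y : F} (hxy : (SF n).toAffine.Nonsingular x y) (hx : x ≠ ee n u)
    (hx' : x ≠ ee n v) (hne : y ^ 2 / (u ^ 2 * (x - ee n u) ^ 2) + ee n v ≠ x) :
    al h hn (Affine.Point.some x y hxy) + -(Affine.Point.some x y hxy : (SF n).toAffine.Point) =
      -(al h.symm hn (Affine.Point.some x y hxy)) := by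
  obtain ⟨h1, e1⟩ := al_some h hn hxy hx
  obtain ⟨h2, e2⟩ := al_some h.symm hn hxy hx'
  obtain ⟨h3, e3⟩ := neg_pt hxy
  obtain ⟨h4, e4⟩ := neg_pt h2
  rw [e1, e2, e3, e4]
  have hX : ¬ (y ^ 2 / (u ^ 2 * (x - ee n u) ^ 2) + ee n v = x ∧
      y * (bb n u - (x - ee n u) ^ 2) / (u ^ 3 * (x - ee n u) ^ 2) =
        (SF n).toAffine.negY x (-y)) := fun hh => hne hh.1
  rw [Affine.Point.add_some hX]
  have hl := line h hxy.1 hx hx'
  have hl' := line h.symm hxy.1 hx' hx
  rw [sl_symm h] at hl'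
  have hsq := sq_slope h hxy.1 hx hx'
  have hslope : (SF n).toAffine.slope (y ^ 2 / (u ^ 2 * (x - ee n u) ^ 2) + ee n v) x
      (y * (bb n u - (x - ee n u) ^ 2) / (u ^ 3 * (x - ee n u) ^ 2)) (-y) = sl n u v x y := by
    rw [Affine.slope_of_X_ne hne, div_eq_iff (sub_ne_zero.2 hne)]
    linear_combination -hl
  have hx3 : (SF n).toAffine.addX (y ^ 2 / (u ^ 2 * (x - ee n u) ^ 2) + ee n v) x (sl n u v x y) =
      y ^ 2 / (v ^ 2 * (x - ee n v) ^ 2) + ee n u := by
    unfold Affine.addX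
    have a1 : (SF n).toAffine.a₁ = 0 := rfl
    have a2 : (SF n).toAffine.a₂ = 0 := rfl
    rw [a1, a2]
    linear_combination hsq
  refine sc_ext _ _ ?_ ?_
  · rw [hslope, hx3]
  · rw [hslope]
    unfold Affine.addY Affine.negAddY
    rw [hx3]
    unfold Affine.negY
    have a1 : (SF n).toAffine.a₁ = 0 := rfl
    have a3 : (SF n).toAffine.a₃ = 0 := rfl
    rw [a1, a3]
    linear_combination hl - hl'

end

end Pool.Agent.L0h75.IS
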