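import Pool.Agent.L0h75.IS.Al

/-!
# The endomorphisms `u`, `v`: their sum, and the scalings
-/

set_option autoImplicit false
set_option linter.unusedSectionVars false
set_option linter.unusedVariables false

open WeierstrassCurve
open scoped Classical

namespace Pool.Agent.L0h75.IS

open Pool.Agent.R939.EI Pool.Agent.Y700

section
variable {F : Type} [Field F] [CharZero F] [NeZero (2 : F)] {n u v : F}
  (h : UV u v) (hn : n ≠ 0)

lemma SF_ns (hn : n ≠ 0) {x y : F} (hxy : y ^ 2 = x ^ 3 - 35 * n ^ 2 * x - 98 * n ^ 3) :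
    (SF n).toAffine.Nonsingular x y := by
  refine nonsing (SF_Δ hn) ?_
  rw [Affine.equation_iff]
  unfold SF
  simp only
  linear_combination hxy

lemma SF_eq {x y : F} (hxy : (SF n).toAffine.Equation x y) :
    y ^ 2 = x ^ 3 - 35 * n ^ 2 * x - 98 * n ^ 3 := by
  rw [Affine.equation_iff] at hxy
  unfold SF at hxy
  simp only at hxy
  linear_combination hxy

/-- two points with the same first coordinate -/
lemma same_x {x y y' : F} (hxy : (SF n).toAffine.Nonsingular x y)
    (hxy' : (SF n).toAffine.Nonsingular x y') :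
    (Affine.Point.some x y hxy : (SF n).toAffine.Point) = Affine.Point.some x y' hxy' ∨
      (Affine.Point.some x y hxy : (SF n).toAffine.Point) = -Affine.Point.some x y' hxy' := by
  have e1 := SF_eq hxy.1
  have e2 := SF_eq hxy'.1
  have e3 : (y - y') * (y + y') = 0 := by linear_combination e1 - e2
  rcases mul_eq_zero.1 e3 with h1 | h1
  · exact Or.inl (sc_ext _ _ rfl (sub_eq_zero.1 h1))
  · right
    obtain ⟨h3, e3⟩ := neg_pt hxy'
    rw [e3]
    exact sc_ext _ _ rfl (eq_neg_of_add_eq_zero_left h1)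

/-- there are infinitely many points -/
lemma inf_SF [IsAlgClosed F] (hn : n ≠ 0) : Infinite (SF n).toAffine.Point := by
  have : Infinite F := IsAlgClosed.instInfinite
  have hex : ∀ x : F, ∃ y : F, y ^ 2 = x ^ 3 - 35 * n ^ 2 * x - 98 * n ^ 3 := fun x =>
    IsAlgClosed.exists_pow_nat_eq _ two_pos
  choose y hy using hex
  refine Infinite.of_injective (fun x : F => (Affine.Point.some x (y x) (SF_ns hn (hy x)) :
    (SF n).toAffine.Point)) ?_
  intro x x' hxx
  exact ((Affine.Point.some.injEq _ _ _ _ _ _).mp hxx).1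

/-- the difference -/
noncomputable def DD (P : (SF n).toAffine.Point) : (SF n).toAffine.Point :=
  al h hn P + al h.symm hn P - P

lemma DD_add (P Q : (SF n).toAffine.Point) : DD h hn (P + Q) = DD h hn P + DD h hn Q := by
  unfold DD
  rw [al_add, al_add]
  abel

/-- **the sum of the two endomorphisms is the identity** -/
theorem al_sum [IsAlgClosed F] (P : (SF n).toAffine.Point) :
    al h hn P + al h.symm hn P = P := by
  have hv4 : v ^ 2 - 4 ≠ 0 := by
    intro h0
    have h1 : v ^ 2 = 4 := by linear_combination h0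
    have h2 := h.symm.hu
    rw [h1] at h2
    have h3 : v = -6 := by linear_combination h2
    rw [h3] at h1
    norm_num at h1
  set X0 : Fin 3 → F := ![ee n u, ee n v, (7 * n * v ^ 2 - 4 * ee n u) / (v ^ 2 - 4)] with hX0
  have hex : ∀ i : Fin 3, ∃ y : F, y ^ 2 = (X0 i) ^ 3 - 35 * n ^ 2 * (X0 i) - 98 * n ^ 3 := fun i =>
    IsAlgClosed.exists_pow_nat_eq _ two_pos
  choose y0 hy0 using hex
  set p0 : Fin 3 → (SF n).toAffine.Point := fun i =>
    Affine.Point.some (X0 i) (y0 i) (SF_ns hn (hy0 i)) with hp0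
  have hgen : ∀ R : (SF n).toAffine.Point, R ≠ 0 → (∀ i, R ≠ p0 i) → (∀ i, R ≠ -p0 i) →
      DD h hn R = 0 := by
    intro R h0 h1 h2
    match R with
    | .zero => exact absurd rfl h0
    | .some x y hxy =>
      have hxne : ∀ i, x ≠ X0 i := by
        intro i hx
        subst hx
        rcases same_x hxy (SF_ns hn (hy0 i)) with h3 | h3
        · exact h1 i h3
        · exact h2 i h3
      have k0 : x ≠ ee n u := hxne 0
      have k1 : x ≠ ee n v := hxne 1
      have k2 : x ≠ (7 * n * v ^ 2 - 4 * ee n u) / (v ^ 2 - 4) := hxne 2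
      have hne : y ^ 2 / (u ^ 2 * (x - ee n u) ^ 2) + ee n v ≠ x := by
        intro h3
        rw [x1_eq h hxy.1 k0] at h3
        have hX : x - ee n u ≠ 0 := sub_ne_zero.2 k0
        have hX' : x - ee n v ≠ 0 := sub_ne_zero.2 k1
        have h4 : (x - ee n v) * (v ^ 2 * (x - 7 * n) - 4 * (x - ee n u)) = 0 := by
          have h5 : v ^ 2 * (x - ee n v) * (x - 7 * n) / (4 * (x - ee n u)) = x - ee n v := by
            linear_combination h3
          rw [div_eq_iff (mul_ne_zero (by norm_num) hX)] at h5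
          linear_combination h5
        have h6 := (mul_eq_zero.1 h4).resolve_left hX'
        apply k2
        rw [eq_div_iff hv4]
        linear_combination h6
      have h7 := al_gen h hn hxy k0 k1 hne
      unfold DD
      have h8 : al h hn (Affine.Point.some x y hxy) = Affine.Point.some x y hxy -
          al h.symm hn (Affine.Point.some x y hxy) := by
        rw [eq_sub_iff_add_eq, ← sub_eq_zero]
        have h9 : al h hn (Affine.Point.some x y hxy) + al h.symm hn (Affine.Point.some x y hxy) -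
            Affine.Point.some x y hxy = (al h hn (Affine.Point.some x y hxy) +
            -(Affine.Point.some x y hxy : (SF n).toAffine.Point)) +
            al h.symm hn (Affine.Point.some x y hxy) := by abel
        rw [h9, h7, neg_add_cancel]
      rw [h8, sub_add_cancel, sub_self]
  have hinf := inf_SF (F := F) hn
  let S : Finset (SF n).toAffine.Point :=
    ({0} ∪ Finset.univ.image p0 ∪ Finset.univ.image (fun i => -p0 i)) ∪
    ({-P} ∪ Finset.univ.image (fun i => p0 i - P) ∪ Finset.univ.image (fun i => -p0 i - P))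
  obtain ⟨R, hR⟩ := Infinite.exists_notMem_finset S
  simp only [S, Finset.mem_union, Finset.mem_singleton, Finset.mem_image, Finset.mem_univ, true_and,
    not_or, not_exists] at hR
  obtain ⟨⟨⟨r1, r2⟩, r3⟩, ⟨r4, r5⟩, r6⟩ := hR
  have g1 : DD h hn R = 0 := hgen R r1 (fun i hi => r2 i hi.symm) (fun i hi => r3 i hi.symm)
  have g2 : DD h hn (P + R) = 0 := by
    refine hgen _ (fun h0 => r4 ?_) (fun i hi => r5 i ?_) (fun i hi => r6 i ?_)
    · rw [← add_left_cancel (a := P) (b := R) (c := -P) (by rw [h0, add_neg_cancel])]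
    · rw [← hi]
      abel
    · rw [← hi]
      abel
  rw [DD_add, g1, add_zero] at g2
  unfold DD at g2
  exact sub_eq_zero.1 g2

end

/-! ### scalings and homomorphisms of fields -/

section
variable {F : Type} [Field F] [CharZero F] [NeZero (2 : F)]

/-- the scaling -/
lemma vrS {n n' w : F} (hw : w ≠ 0) (hn : n' = w ^ 2 * n) : VR (SF n') (SF n) w 0 0 0 where
  u0 := hw
  e1 := by unfold SF; ring
  e2 := by unfold SF; ring
  e3 := by unfold SF; ring
  e4 := by unfold SF; simp only; rw [hn]; ring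
  e6 := by unfold SF; simp only; rw [hn]; ring

/-- the scaling on points -/
noncomputable def sg {n n' w : F} (hw : w ≠ 0) (hn0 : n ≠ 0) (hn : n' = w ^ 2 * n) :
    (SF n).toAffine.Point → (SF n').toAffine.Point := (vrS hw hn).fn (SF_Δ hn0)

lemma sg_some {n n' w : F} (hw : w ≠ 0) (hn0 : n ≠ 0) (hn : n' = w ^ 2 * n) {x y : F}
    (hxy : (SF n).toAffine.Nonsingular x y) :
    ∃ h', sg hw hn0 hn (Affine.Point.some x y hxy) =
      (Affine.Point.some (w ^ 2 * x) (w ^ 3 * y) h' : (SF n').toAffine.Point) := by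
  have hall : ∀ (x' y' : F) (h' : (SF n').toAffine.Nonsingular x' y'),
      x' = w ^ 2 * x → y' = w ^ 3 * y →
      ∃ h'', (Affine.Point.some x' y' h' : (SF n').toAffine.Point) =
      Affine.Point.some (w ^ 2 * x) (w ^ 3 * y) h'' := by
    intro x' y' h' h1 h2
    subst h1
    subst h2
    exact ⟨h', rfl⟩
  unfold sg
  rw [VR.fn_some]
  exact hall _ _ _ (by ring) (by ring)

lemma sg_zero {n n' w : F} (hw : w ≠ 0) (hn0 : n ≠ 0) (hn : n' = w ^ 2 * n) :
    sg hw hn0 hn 0 = 0 := rfl

lemma sg_add {n n' w : F} (hw : w ≠ 0) (hn0 : n ≠ 0) (hn : n' = w ^ 2 * n)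
    (P Q : (SF n).toAffine.Point) : sg hw hn0 hn (P + Q) = sg hw hn0 hn P + sg hw hn0 hn Q :=
  VR.fn_add _ _ P Q

/-- the scaling commutes with the endomorphism -/
lemma al_sg {n n' w u v : F} (h : UV u v) (hw : w ≠ 0) (hn0 : n ≠ 0) (hn0' : n' ≠ 0)
    (hn : n' = w ^ 2 * n) (P : (SF n).toAffine.Point) :
    al h hn0' (sg hw hn0 hn P) = sg hw hn0 hn (al h hn0 P) := by
  match P with
  | .zero =>
    show al h hn0' (sg hw hn0 hn 0) = sg hw hn0 hn (al h hn0 0)
    rw [sg_zero, al_zero, al_zero, sg_zero]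
  | .some x y hxy =>
    obtain ⟨h1, e1⟩ := sg_some hw hn0 hn hxy
    rw [e1]
    have hee : ∀ z : F, ee n' z = w ^ 2 * ee n z := by
      intro z
      unfold ee
      rw [hn]
      ring
    have hbb : bb n' u = w ^ 4 * bb n u := by
      unfold bb
      rw [hn]
      ring
    by_cases hx : x = ee n u
    · rw [al_x0 h hn0 hxy hx, al_x0 h hn0' h1 (by rw [hx, hee]), sg_zero]
    · have hx' : w ^ 2 * x ≠ ee n' u := by
        rw [hee]
        intro h2
        exact hx (mul_left_cancel₀ (pow_ne_zero 2 hw) h2)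
      obtain ⟨h2, e2⟩ := al_some h hn0 hxy hx
      obtain ⟨h3, e3⟩ := al_some h hn0' h1 hx'
      rw [e2, e3]
      obtain ⟨h4, e4⟩ := sg_some hw hn0 hn h2
      rw [e4]
      have hX : x - ee n u ≠ 0 := sub_ne_zero.2 hx
      have hu0 := h.ne
      have f1 : w ^ 2 * x - ee n' u = w ^ 2 * (x - ee n u) := by rw [hee]; ring
      refine sc_ext _ _ ?_ ?_
      · rw [f1, hee]
        field_simp
      · rw [f1, hbb]
        field_simp

/-- two scalings -/
lemma sg_sg {n n' n'' w w' : F} (hw : w ≠ 0) (hw' : w' ≠ 0) (hn0 : n ≠ 0) (hn0' : n' ≠ 0)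
    (hn : n' = w ^ 2 * n) (hn' : n'' = w' ^ 2 * n') (hn'' : n'' = (w' * w) ^ 2 * n)
    (P : (SF n).toAffine.Point) :
    sg hw' hn0' hn' (sg hw hn0 hn P) = sg (mul_ne_zero hw' hw) hn0 hn'' P := by
  match P with
  | .zero => rfl
  | .some x y hxy =>
    obtain ⟨h1, e1⟩ := sg_some hw hn0 hn hxy
    obtain ⟨h2, e2⟩ := sg_some hw' hn0' hn' h1
    obtain ⟨h3, e3⟩ := sg_some (mul_ne_zero hw' hw) hn0 hn'' hxy
    rw [e1, e2, e3]
    exact sc_ext _ _ (by ring) (by ring)

/-- the scaling by `-w` -/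
lemma sg_neg {n n' w w' : F} (hw : w ≠ 0) (hw' : w' ≠ 0) (hn0 : n ≠ 0) (hn : n' = w ^ 2 * n)
    (hn' : n' = w' ^ 2 * n) (hww : w' = -w) (P : (SF n).toAffine.Point) :
    sg hw' hn0 hn' P = -sg hw hn0 hn P := by
  match P with
  | .zero =>
    show (0 : (SF n').toAffine.Point) = -0
    rw [neg_zero]
  | .some x y hxy =>
    obtain ⟨h1, e1⟩ := sg_some hw hn0 hn hxy
    obtain ⟨h2, e2⟩ := sg_some hw' hn0 hn' hxy
    rw [e1, e2]
    obtain ⟨h3, e3⟩ := neg_pt h1
    rw [e3]
    exact sc_ext _ _ (by rw [hww]; ring) (by rw [hww]; ring)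

/-- the scaling by `-1` -/
lemma sg_minus {n w : F} (hw : w ≠ 0) (hn0 : n ≠ 0) (hn : n = w ^ 2 * n) (hw1 : w = -1)
    (P : (SF n).toAffine.Point) : sg hw hn0 hn P = -P := by
  match P with
  | .zero =>
    show (0 : (SF n).toAffine.Point) = -0
    rw [neg_zero]
  | .some x y hxy =>
    obtain ⟨h1, e1⟩ := sg_some hw hn0 hn hxy
    obtain ⟨h3, e3⟩ := neg_pt hxy
    rw [e1, e3]
    exact sc_ext _ _ (by rw [hw1]; ring) (by rw [hw1]; ring)

end

end Pool.Agent.L0h75.IS
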