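import Pool.Agent.L0h75.IS.Al2
import Pool.Agent.TH841.NF.Tm
import Pool.Agent.TH841.NF.ShaN

/-!
# The isogeny of degree seven from `y² = x³ - 35 n² x - 98 n³` to its twist by `-7`
-/

set_option autoImplicit false
set_option linter.unusedSectionVars false

open WeierstrassCurve
open scoped Classical

namespace Pool.Agent.L0h75.IS

open Pool.Agent.TH841.SH.D (Pt act)

/-- the curve `y² = x³ - 35 n² x - 98 n³` -/
def S7 (n : ℚ) : WeierstrassCurve ℚ := ⟨0, 0, 0, -35 * n ^ 2, -98 * n ^ 3⟩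

section
variable {L : Type} [Field L] [Algebra ℚ L]

lemma hS (n : ℚ) : (S7 n).baseChange L = SF (algebraMap ℚ L n) := by
  ext
  · exact map_zero _
  · exact map_zero _
  · exact map_zero _
  · show algebraMap ℚ L (-35 * n ^ 2) = -35 * (algebraMap ℚ L n) ^ 2
    simp only [map_mul, map_neg, map_pow, map_ofNat]
  · show algebraMap ℚ L (-98 * n ^ 3) = -98 * (algebraMap ℚ L n) ^ 3
    simp only [map_mul, map_neg, map_pow, map_ofNat]

/-- the identification of the points -/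
noncomputable def trE {W W' : WeierstrassCurve L} (h : W = W') :
    W.toAffine.Point ≃+ W'.toAffine.Point := by
  subst h
  exact AddEquiv.refl _

lemma trE_some {W W' : WeierstrassCurve L} (h : W = W') {x y : L} (hxy : W.toAffine.Nonsingular x y) :
    ∃ h', trE h (Affine.Point.some x y hxy) = (Affine.Point.some x y h' : W'.toAffine.Point) := by
  subst h
  exact ⟨hxy, rfl⟩

lemma trE_symm_some {W W' : WeierstrassCurve L} (h : W = W') {x y : L}
    (hxy : W'.toAffine.Nonsingular x y) :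
    ∃ h', (trE h).symm (Affine.Point.some x y hxy) =
      (Affine.Point.some x y h' : W.toAffine.Point) := by
  subst h
  exact ⟨hxy, rfl⟩

/-- the points over `L` -/
noncomputable def idn (n : ℚ) : Pt (S7 n) L ≃+ (SF (algebraMap ℚ L n)).toAffine.Point :=
  trE (hS n)

/-- a point -/
def pt {n : ℚ} (x y : L) (h : ((S7 n).baseChange L).toAffine.Nonsingular x y) : Pt (S7 n) L :=
  Affine.Point.some x y h

lemma pt_ext {n : ℚ} {x y x' y' : L}
    (h : ((S7 n).baseChange L).toAffine.Nonsingular x y)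
    (h' : ((S7 n).baseChange L).toAffine.Nonsingular x' y') (hx : x = x') (hy : y = y') :
    pt x y h = pt x' y' h' := by
  subst hx
  subst hy
  rfl

lemma idn_pt {n : ℚ} {x y : L} (hxy : ((S7 n).baseChange L).toAffine.Nonsingular x y) :
    ∃ h', idn n (pt x y hxy) =
      (Affine.Point.some x y h' : (SF (algebraMap ℚ L n)).toAffine.Point) :=
  trE_some (hS n) hxy

lemma idn_symm_some {n : ℚ} {x y : L} (hxy : (SF (algebraMap ℚ L n)).toAffine.Nonsingular x y) :
    ∃ h', (idn n).symm (Affine.Point.some x y hxy) = pt x y h' :=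
  trE_symm_some (hS n) hxy

end

section
variable {L : Type} [Field L] [Algebra ℚ L] [CharZero L] {u v : L} (h : UV u v)

lemma two0 : NeZero (2 : L) := ⟨two_ne_zero⟩

lemma an {n : ℚ} (hn : n ≠ 0) : algebraMap ℚ L n ≠ 0 := (map_ne_zero _).2 hn

/-- the endomorphism -/
noncomputable def AL {n : ℚ} (hn : n ≠ 0) : Pt (S7 n) L →+ Pt (S7 n) L :=
  have : NeZero (2 : L) := ⟨two_ne_zero⟩
  (idn n).symm.toAddMonoidHom.comp ((AddMonoidHom.mk' (al h (an hn)) (al_add h (an hn))).comp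
    (idn n).toAddMonoidHom)

lemma AL_apply {n : ℚ} (hn : n ≠ 0) (P : Pt (S7 n) L) :
    haveI : NeZero (2 : L) := ⟨two_ne_zero⟩
    AL h hn P = (idn n).symm (al h (an hn) (idn n P)) := rfl

lemma AL_x0 {n : ℚ} (hn : n ≠ 0) {x y : L}
    (hxy : ((S7 n).baseChange L).toAffine.Nonsingular x y) (hx : x = ee (algebraMap ℚ L n) u) :
    AL h hn (pt x y hxy) = 0 := by
  have : NeZero (2 : L) := ⟨two_ne_zero⟩
  obtain ⟨h1, e1⟩ := idn_pt hxy
  rw [AL_apply, e1, al_x0 h (an hn) h1 hx, map_zero]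

lemma AL_some {n : ℚ} (hn : n ≠ 0) {x y : L}
    (hxy : ((S7 n).baseChange L).toAffine.Nonsingular x y) (hx : x ≠ ee (algebraMap ℚ L n) u) :
    ∃ h', AL h hn (pt x y hxy) =
      pt (y ^ 2 / (u ^ 2 * (x - ee (algebraMap ℚ L n) u) ^ 2) + ee (algebraMap ℚ L n) v)
        (y * (bb (algebraMap ℚ L n) u - (x - ee (algebraMap ℚ L n) u) ^ 2) /
          (u ^ 3 * (x - ee (algebraMap ℚ L n) u) ^ 2)) h' := by
  have : NeZero (2 : L) := ⟨two_ne_zero⟩
  obtain ⟨h1, e1⟩ := idn_pt hxy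
  obtain ⟨h2, e2⟩ := al_some h (an hn) h1 hx
  obtain ⟨h3, e3⟩ := idn_symm_some h2
  refine ⟨h3, ?_⟩
  rw [AL_apply, e1, e2, e3]

/-- the scaling -/
noncomputable def SG {n n' : ℚ} {w : L} (hw : w ≠ 0) (hn : n ≠ 0)
    (hn' : algebraMap ℚ L n' = w ^ 2 * algebraMap ℚ L n) : Pt (S7 n) L →+ Pt (S7 n') L :=
  have : NeZero (2 : L) := ⟨two_ne_zero⟩
  (idn n').symm.toAddMonoidHom.comp ((AddMonoidHom.mk' (sg hw (an hn) hn')
    (sg_add hw (an hn) hn')).comp (idn n).toAddMonoidHom)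

lemma SG_apply {n n' : ℚ} {w : L} (hw : w ≠ 0) (hn : n ≠ 0)
    (hn' : algebraMap ℚ L n' = w ^ 2 * algebraMap ℚ L n) (P : Pt (S7 n) L) :
    haveI : NeZero (2 : L) := ⟨two_ne_zero⟩
    SG hw hn hn' P = (idn n').symm (sg hw (an hn) hn' (idn n P)) := rfl

lemma SG_pt {n n' : ℚ} {w : L} (hw : w ≠ 0) (hn : n ≠ 0)
    (hn' : algebraMap ℚ L n' = w ^ 2 * algebraMap ℚ L n) {x y : L}
    (hxy : ((S7 n).baseChange L).toAffine.Nonsingular x y) :
    ∃ h', SG hw hn hn' (pt x y hxy) = pt (w ^ 2 * x) (w ^ 3 * y) h' := by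
  have : NeZero (2 : L) := ⟨two_ne_zero⟩
  obtain ⟨h1, e1⟩ := idn_pt hxy
  obtain ⟨h2, e2⟩ := sg_some hw (an hn) hn' h1
  obtain ⟨h3, e3⟩ := idn_symm_some h2
  refine ⟨h3, ?_⟩
  rw [SG_apply, e1, e2, e3]

/-- the endomorphism commutes with the scaling -/
lemma AL_SG {n n' : ℚ} {w : L} (hw : w ≠ 0) (hn : n ≠ 0) (hn0' : n' ≠ 0)
    (hn' : algebraMap ℚ L n' = w ^ 2 * algebraMap ℚ L n) (P : Pt (S7 n) L) :
    AL h hn0' (SG hw hn hn' P) = SG hw hn hn' (AL h hn P) := by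
  have : NeZero (2 : L) := ⟨two_ne_zero⟩
  rw [AL_apply, AL_apply, SG_apply, SG_apply, AddEquiv.apply_symm_apply, AddEquiv.apply_symm_apply,
    al_sg h hw (an hn) (an hn0') hn']

lemma AL_AL {n : ℚ} (hn : n ≠ 0) (P : Pt (S7 n) L) : AL h.symm hn (AL h hn P) = P + P := by
  have : NeZero (2 : L) := ⟨two_ne_zero⟩
  rw [AL_apply, AL_apply, AddEquiv.apply_symm_apply, al_al, map_add, AddEquiv.symm_apply_apply]

lemma AL_sum [IsAlgClosed L] {n : ℚ} (hn : n ≠ 0) (P : Pt (S7 n) L) :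
    AL h hn P + AL h.symm hn P = P := by
  have : NeZero (2 : L) := ⟨two_ne_zero⟩
  rw [AL_apply, AL_apply, ← map_add, al_sum, AddEquiv.symm_apply_apply]

lemma SG_neg {n n' : ℚ} {w w' : L} (hw : w ≠ 0) (hw' : w' ≠ 0) (hn : n ≠ 0)
    (hn' : algebraMap ℚ L n' = w ^ 2 * algebraMap ℚ L n)
    (hn'' : algebraMap ℚ L n' = w' ^ 2 * algebraMap ℚ L n) (hww : w' = -w) (P : Pt (S7 n) L) :
    SG hw' hn hn'' P = -SG hw hn hn' P := by
  have : NeZero (2 : L) := ⟨two_ne_zero⟩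
  rw [SG_apply, SG_apply, sg_neg hw hw' (an hn) hn' hn'' hww, map_neg]

lemma SG_SG {n n' : ℚ} {w w' : L} (hw : w ≠ 0) (hw' : w' ≠ 0) (hn : n ≠ 0) (hn0' : n' ≠ 0)
    (hn' : algebraMap ℚ L n' = w ^ 2 * algebraMap ℚ L n)
    (hn'' : algebraMap ℚ L n = w' ^ 2 * algebraMap ℚ L n') (hww : w' * w = -1) (P : Pt (S7 n) L) :
    SG hw' hn0' hn'' (SG hw hn hn' P) = -P := by
  have : NeZero (2 : L) := ⟨two_ne_zero⟩
  have hsq : algebraMap ℚ L n = (w' * w) ^ 2 * algebraMap ℚ L n := by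
    rw [hww]
    ring
  rw [SG_apply, SG_apply, AddEquiv.apply_symm_apply,
    sg_sg hw hw' (an hn) (an hn0') hn' hn'' hsq, sg_minus _ _ _ hww, map_neg,
    AddEquiv.symm_apply_apply]

/-! ### the isogeny of degree seven -/

include h in
lemma w_sq : (1 + 2 * u) ^ 2 = -7 := by
  linear_combination 4 * h.hu

include h in
lemma w_ne {r : ℚ} (hr : r ≠ 0) : algebraMap ℚ L r * (1 + 2 * u) ≠ 0 := by
  refine mul_ne_zero (an hr) ?_
  intro h0
  have := w_sq h
  rw [h0] at this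
  norm_num at this

include h in
lemma w_h {n n' r : ℚ} (hn' : n' = -7 * r ^ 2 * n) :
    algebraMap ℚ L n' = (algebraMap ℚ L r * (1 + 2 * u)) ^ 2 * algebraMap ℚ L n := by
  rw [hn', mul_pow, w_sq h]
  simp only [map_mul, map_neg, map_pow, map_ofNat]
  ring

/-- **the isogeny of degree seven** -/
noncomputable def psi {n n' r : ℚ} (hn : n ≠ 0) (hr : r ≠ 0) (hn' : n' = -7 * r ^ 2 * n) :
    Pt (S7 n) L →+ Pt (S7 n') L :=
  (SG (w_ne h hr) hn (w_h h hn')).comp (AL h hn + AL h hn - AddMonoidHom.id _)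

lemma psi_apply {n n' r : ℚ} (hn : n ≠ 0) (hr : r ≠ 0) (hn' : n' = -7 * r ^ 2 * n)
    (P : Pt (S7 n) L) : psi h hn hr hn' P =
      SG (w_ne h hr) hn (w_h h hn') (AL h hn P + AL h hn P - P) := rfl

/-- the composition with the dual isogeny -/
theorem psi_psi [IsAlgClosed L] {n n' r s : ℚ} (hn : n ≠ 0) (hn0' : n' ≠ 0) (hr : r ≠ 0) (hs : s ≠ 0)
    (hn' : n' = -7 * r ^ 2 * n) (hn'' : n = -7 * s ^ 2 * n') (hrs : r * s = 1 / 7)
    (P : Pt (S7 n) L) : psi h hn0' hs hn'' (psi h hn hr hn' P) = (7 : ℕ) • P := by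
  have hw : (algebraMap ℚ L s * (1 + 2 * u)) * (algebraMap ℚ L r * (1 + 2 * u)) = -1 := by
    have e : (algebraMap ℚ L s * (1 + 2 * u)) * (algebraMap ℚ L r * (1 + 2 * u)) =
        algebraMap ℚ L (r * s) * (1 + 2 * u) ^ 2 := by
      rw [map_mul]
      ring
    rw [e, hrs, w_sq h]
    simp only [map_div₀, map_one, map_ofNat]
    norm_num
  have hA : AL h hn (AL h hn P) = AL h hn P - (P + P) := by
    have h1 := AL_sum h hn (AL h hn P)
    rw [AL_AL h hn P] at h1
    exact eq_sub_of_add_eq h1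
  rw [psi_apply, psi_apply, AL_SG h _ hn hn0', ← map_add, ← map_sub, SG_SG _ _ hn hn0' _ _ hw]
  simp only [map_add, map_sub, hA]
  abel

/-- the isogeny does not depend on the choice of the root -/
theorem psi_symm [IsAlgClosed L] {n n' r : ℚ} (hn : n ≠ 0) (hr : r ≠ 0) (hn' : n' = -7 * r ^ 2 * n)
    (P : Pt (S7 n) L) : psi h.symm hn hr hn' P = psi h hn hr hn' P := by
  have hsum := AL_sum h hn P
  have e : AL h.symm hn P = P - AL h hn P := eq_sub_of_add_eq' hsum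
  rw [psi_apply, psi_apply, e,
    SG_neg (w_ne h hr) (w_ne h.symm hr) hn (w_h h hn') (w_h h.symm hn') (by rw [h.hv]; ring),
    ← map_neg]
  congr 1
  abel

end

/-! ### the action of the homomorphisms of fields -/

section
variable {F L : Type} [Field F] [Field L] [Algebra ℚ F] [Algebra ℚ L]

lemma act_pt {n : ℚ} (g : F →ₐ[ℚ] L) (x y : F)
    (h : ((S7 n).baseChange F).toAffine.Nonsingular x y) :
    ∃ h', act (S7 n) g (pt x y h) = pt (g x) (g y) h' := ⟨_, rfl⟩

lemma UV.map {u v : F} (h : UV u v) (g : F →ₐ[ℚ] L) : UV (g u) (g v) where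
  hu := by
    have := congrArg g h.hu
    simpa only [map_add, map_pow, map_ofNat, map_zero] using this
  hv := by
    rw [h.hv, map_sub, map_neg, map_one]

variable [CharZero F] [CharZero L]

lemma g_ee {n : ℚ} (g : F →ₐ[ℚ] L) (u : F) :
    g (ee (algebraMap ℚ F n) u) = ee (algebraMap ℚ L n) (g u) := by
  unfold ee
  rw [map_mul, map_neg, g.commutes, map_add, map_ofNat]

lemma g_bb {n : ℚ} (g : F →ₐ[ℚ] L) (u : F) :
    g (bb (algebraMap ℚ F n) u) = bb (algebraMap ℚ L n) (g u) := by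
  unfold bb
  simp only [map_mul, map_pow, map_ofNat, g.commutes, map_add, map_one]

lemma act_AL {u v : F} (h : UV u v) (g : F →ₐ[ℚ] L) {n : ℚ} (hn : n ≠ 0) (P : Pt (S7 n) F) :
    act (S7 n) g (AL h hn P) = AL (h.map g) hn (act (S7 n) g P) := by
  match P with
  | .zero =>
    change act (S7 n) g (AL h hn 0) = AL (h.map g) hn (act (S7 n) g 0)
    rw [map_zero, map_zero, map_zero]
  | .some x y hxy =>
    change act (S7 n) g (AL h hn (pt x y hxy)) = AL (h.map g) hn (act (S7 n) g (pt x y hxy))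
    obtain ⟨h1, e1⟩ := act_pt g x y hxy
    rw [e1]
    by_cases hx : x = ee (algebraMap ℚ F n) u
    · rw [AL_x0 h hn hxy hx, AL_x0 (h.map g) hn h1 (by rw [hx, g_ee]), map_zero]
    · have hx' : g x ≠ ee (algebraMap ℚ L n) (g u) := by
        rw [← g_ee]
        exact fun h2 => hx (g.toRingHom.injective h2)
      obtain ⟨h2, e2⟩ := AL_some h hn hxy hx
      obtain ⟨h3, e3⟩ := AL_some (h.map g) hn h1 hx'
      obtain ⟨h4, e4⟩ := act_pt g _ _ h2
      rw [e2, e3, e4]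
      refine pt_ext _ _ ?_ ?_
      · rw [← g_ee, ← g_ee]
        simp only [map_mul, map_pow, map_add, map_sub, map_div₀]
      · rw [← g_ee, ← g_bb]
        simp only [map_mul, map_pow, map_sub, map_div₀]

lemma act_SG {n n' : ℚ} {w : F} (hw : w ≠ 0) (hn : n ≠ 0)
    (hn' : algebraMap ℚ F n' = w ^ 2 * algebraMap ℚ F n) {w' : L} (hw' : w' ≠ 0)
    (hn'' : algebraMap ℚ L n' = w' ^ 2 * algebraMap ℚ L n) (g : F →ₐ[ℚ] L) (hg : g w = w')
    (P : Pt (S7 n) F) : act (S7 n') g (SG hw hn hn' P) = SG hw' hn hn'' (act (S7 n) g P) := by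
  match P with
  | .zero =>
    change act (S7 n') g (SG hw hn hn' 0) = SG hw' hn hn'' (act (S7 n) g 0)
    rw [map_zero, map_zero, map_zero, map_zero]
  | .some x y hxy =>
    change act (S7 n') g (SG hw hn hn' (pt x y hxy)) = SG hw' hn hn'' (act (S7 n) g (pt x y hxy))
    obtain ⟨h1, e1⟩ := act_pt g x y hxy
    obtain ⟨h2, e2⟩ := SG_pt hw hn hn' hxy
    obtain ⟨h3, e3⟩ := SG_pt hw' hn hn'' h1
    obtain ⟨h4, e4⟩ := act_pt g _ _ h2
    rw [e1, e2, e3, e4]
    refine pt_ext _ _ ?_ ?_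
    · rw [map_mul, map_pow, hg]
    · rw [map_mul, map_pow, hg]

/-- the isogeny commutes with the homomorphisms of fields -/
theorem act_psi [IsAlgClosed L] (g : F →ₐ[ℚ] L) {u v : F} (h : UV u v) {a b : L} (h' : UV a b)
    {n n' r : ℚ} (hn : n ≠ 0) (hr : r ≠ 0) (hn' : n' = -7 * r ^ 2 * n) (P : Pt (S7 n) F) :
    act (S7 n') g (psi h hn hr hn' P) = psi h' hn hr hn' (act (S7 n) g P) := by
  have key : act (S7 n') g (psi h hn hr hn' P) = psi (h.map g) hn hr hn' (act (S7 n) g P) := by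
    rw [psi_apply, psi_apply, act_SG (w_ne h hr) hn (w_h h hn') (w_ne (h.map g) hr)
      (w_h (h.map g) hn') g (by rw [map_mul, g.commutes, map_add, map_mul, map_one, map_ofNat]),
      map_sub, map_add, act_AL]
  rw [key]
  have h1 : (g u - a) * (g u - b) = 0 := by
    rw [h'.hv]
    linear_combination (h.map g).hu - h'.hu
  have hb : g v = -1 - g u := (h.map g).hv
  rcases mul_eq_zero.1 h1 with h2 | h2
  · have e1 : g u = a := sub_eq_zero.1 h2
    have e2 : g v = b := by rw [hb, e1, h'.hv]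
    have hall : ∀ (a' b' : L) (h'' : UV a' b'), a' = a → b' = b →
        psi h'' hn hr hn' (act (S7 n) g P) = psi h' hn hr hn' (act (S7 n) g P) := by
      intro a' b' h'' k1 k2
      subst k1
      subst k2
      rfl
    exact hall _ _ _ e1 e2
  · have e1 : g u = b := sub_eq_zero.1 h2
    have e2 : g v = a := by rw [hb, e1, h'.hv]; ring
    rw [← psi_symm h']
    have hall : ∀ (a' b' : L) (h'' : UV a' b'), a' = b → b' = a →
        psi h'' hn hr hn' (act (S7 n) g P) = psi h'.symm hn hr hn' (act (S7 n) g P) := by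
      intro a' b' h'' k1 k2
      subst k1
      subst k2
      rfl
    exact hall _ _ _ e1 e2

end

end Pool.Agent.L0h75.IS
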